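import Pool.Agent.H52J.Skew
import Pool.Agent.H52P.JR

/-! Return probabilities of a finite partition of the fibre. -/

set_option linter.style.longLine false
set_option linter.unusedSectionVars false
set_option linter.style.header false

namespace Pool.Agent.H52P

open MeasureTheory Filter Topology
open Pool.Agent.H52J (skew measurable_skew skew_iter_fst fibre_iter)

variable {W F ι : Type*} [MeasurableSpace W] [MeasurableSpace F] [MeasurableSpace ι]
  [MeasurableSingletonClass ι] [Countable ι]

/-- points for which the iterates `n` and `k` lie in the same atom of the partition -/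
def same (T₀ : W → W) (φ : W → F → F) (c : F → ι) (n k : ℕ) : Set (W × F) :=
  {x | c ((skew T₀ φ)^[n] x).2 = c ((skew T₀ φ)^[k] x).2}

lemma measurableSet_same {T₀ : W → W} {φ : W → F → F} (hm : Measurable (skew T₀ φ)) {c : F → ι}
    (hc : Measurable c) (n k : ℕ) : MeasurableSet (same T₀ φ c n k) := by
  have h : ∀ n, Measurable fun x : W × F => c ((skew T₀ φ)^[n] x).2 := fun n =>
    hc.comp (measurable_snd.comp (hm.iterate n))
  exact measurableSet_eq_fun (h n) (h k)

/-- return distance of a partition -/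
noncomputable def dc (m : Measure F) (T₀ : W → W) (φ : W → F → F) (c : F → ι)
    (w : W) (n k : ℕ) : ℝ := 1 - m.real (Prod.mk w ⁻¹' same T₀ φ c n k)

section

variable {lam : Measure W} [IsProbabilityMeasure lam] {m : Measure F} [IsProbabilityMeasure m]
  {T₀ : W → W} {φ : W → F → F}

lemma measurable_dc (hm : Measurable (skew T₀ φ)) {c : F → ι} (hc : Measurable c)
    (n k : ℕ) : Measurable fun w => dc m T₀ φ c w n k :=
  measurable_const.sub
    (measurable_measure_prodMk_left (measurableSet_same hm hc n k)).ennreal_toReal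

lemma dc_symm (c : F → ι) (w : W) (n k : ℕ) : dc m T₀ φ c w n k = dc m T₀ φ c w k n := by
  unfold dc same
  congr 3
  ext x
  simp only [Set.mem_ofPred_eq]
  exact eq_comm

lemma dc_diag (c : F → ι) (w : W) (n : ℕ) : dc m T₀ φ c w n n = 0 := by
  unfold dc same
  simp

lemma dc_nonneg (c : F → ι) (w : W) (n k : ℕ) : 0 ≤ dc m T₀ φ c w n k := by
  unfold dc
  have : m.real (Prod.mk w ⁻¹' same T₀ φ c n k) ≤ 1 := measureReal_le_one
  linarith

lemma dc_le (c : F → ι) (w : W) (n k : ℕ) : dc m T₀ φ c w n k ≤ 1 := by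
  unfold dc
  have : 0 ≤ m.real (Prod.mk w ⁻¹' same T₀ φ c n k) := measureReal_nonneg
  linarith

lemma dc_shift (hm : Measurable (skew T₀ φ)) (hφm : ∀ w, MeasurePreserving (φ w) m m)
    {c : F → ι} (hc : Measurable c)
    (w : W) (n k : ℕ) : dc m T₀ φ c w n (n + k) = dc m T₀ φ c (T₀^[n] w) 0 k := by
  unfold dc
  congr 1
  have h : Prod.mk w ⁻¹' same T₀ φ c n (n + k)
      = (fun f => ((skew T₀ φ)^[n] (w, f)).2) ⁻¹' (Prod.mk (T₀^[n] w) ⁻¹' same T₀ φ c 0 k) := by
    ext f
    simp only [Set.mem_preimage, same, Set.mem_ofPred_eq, Function.iterate_zero, id]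
    have e : (skew T₀ φ)^[n] (w, f) = (T₀^[n] w, ((skew T₀ φ)^[n] (w, f)).2) :=
      Prod.ext (skew_iter_fst T₀ φ n (w, f)) rfl
    rw [add_comm, Function.iterate_add_apply, ← e]
  rw [h, measureReal_def, measureReal_def,
    (fibre_iter hφm n w).measure_preimage
      (measurable_prodMk_left (measurableSet_same hm hc 0 k)).nullMeasurableSet]

lemma integral_dc (hm : Measurable (skew T₀ φ)) {c : F → ι} (hc : Measurable c)
    {A : Set W} (hA : MeasurableSet A) (n k : ℕ) :
    ∫ w in A, (1 - dc m T₀ φ c w n k) ∂lam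
      = (lam.prod m).real ((Prod.fst ⁻¹' A) ∩ same T₀ φ c n k) := by
  have hD := measurableSet_same hm hc n k
  have hAp : MeasurableSet (Prod.fst ⁻¹' A : Set (W × F)) := measurable_fst hA
  have e0 : ∀ w, 1 - dc m T₀ φ c w n k = m.real (Prod.mk w ⁻¹' same T₀ φ c n k) := fun w => by
    unfold dc; ring
  simp only [e0]
  rw [measureReal_def, Measure.prod_apply (hAp.inter hD), ← integral_indicator hA]
  have e : ∀ w, m (Prod.mk w ⁻¹' ((Prod.fst ⁻¹' A) ∩ same T₀ φ c n k))
      = A.indicator (fun w => m (Prod.mk w ⁻¹' same T₀ φ c n k)) w := by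
    intro w
    by_cases h : w ∈ A
    · rw [Set.indicator_of_mem h]
      congr 1
      ext f
      simp [h]
    · rw [Set.indicator_of_notMem h]
      have : Prod.mk w ⁻¹' ((Prod.fst ⁻¹' A) ∩ same T₀ φ c n k) = ∅ := by
        ext f
        simp [h]
      rw [this, measure_empty]
  rw [← integral_toReal]
  · apply integral_congr_ae
    filter_upwards with w
    rw [e w]
    by_cases h : w ∈ A
    · rw [Set.indicator_of_mem h, Set.indicator_of_mem h]
      rfl
    · rw [Set.indicator_of_notMem h, Set.indicator_of_notMem h]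
      rfl
  · exact (measurable_measure_prodMk_left (hAp.inter hD)).aemeasurable
  · filter_upwards with w
    exact measure_lt_top _ _

/-- many sets of measure at least `b`: two of them meet in measure at least `b² / 2` -/
lemma exists_meet {G : ℕ → Set F} (hG : ∀ n, MeasurableSet (G n)) {b : ℝ} (hb : 0 < b) {q : ℕ}
    (hq : 2 < q * b ^ 2) (Z : Finset ℕ) (hZ : q ≤ Z.card) (hGb : ∀ n ∈ Z, b ≤ m.real (G n)) :
    ∃ n ∈ Z, ∃ n' ∈ Z, n ≠ n' ∧ b ^ 2 / 2 < m.real (G n ∩ G n') := by
  classical
  by_contra hcon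
  push Not at hcon
  let s : F → ℝ := fun f => ∑ n ∈ Z, (G n).indicator (fun _ => (1 : ℝ)) f
  let N : ℝ := Z.card
  have hN : 2 < N * b ^ 2 := by
    have : (q : ℝ) ≤ N := by
      simp only [N]
      exact_mod_cast hZ
    have := mul_le_mul_of_nonneg_right this (sq_nonneg b)
    linarith
  have hN0 : 0 < N := by
    by_contra h
    have := mul_nonpos_of_nonpos_of_nonneg (not_lt.mp h) (sq_nonneg b)
    linarith
  have hIn : ∀ n, Integrable ((G n).indicator fun _ => (1 : ℝ)) m := fun n =>
    (integrable_const 1).indicator (hG n)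
  have hs : Integrable s m := integrable_finsetSum _ fun n _ => hIn n
  have hs1 : N * b ≤ ∫ f, s f ∂m := by
    simp only [s]
    rw [integral_finsetSum _ fun n _ => hIn n]
    calc N * b = ∑ n ∈ Z, b := by simp only [N, Finset.sum_const, nsmul_eq_mul]
      _ ≤ ∑ n ∈ Z, ∫ f, (G n).indicator (fun _ => (1 : ℝ)) f ∂m := by
          apply Finset.sum_le_sum
          intro n hn
          rw [integral_indicator_const _ (hG n), smul_eq_mul, mul_one]
          exact hGb n hn
  have hsq : ∀ f, s f ^ 2 = ∑ n ∈ Z, ∑ n' ∈ Z, (G n ∩ G n').indicator (fun _ => (1 : ℝ)) f := by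
    intro f
    simp only [s]
    rw [sq, Finset.sum_mul_sum]
    apply Finset.sum_congr rfl
    intro n _
    apply Finset.sum_congr rfl
    intro n' _
    by_cases h1 : f ∈ G n <;> by_cases h2 : f ∈ G n' <;> simp [h1, h2]
  have hIn2 : ∀ n n', Integrable ((G n ∩ G n').indicator fun _ => (1 : ℝ)) m := fun n n' =>
    (integrable_const 1).indicator ((hG n).inter (hG n'))
  have hsqI : Integrable (fun f => s f ^ 2) m := by
    simp only [hsq]
    exact integrable_finsetSum _ fun n _ => integrable_finsetSum _ fun n' _ => hIn2 n n'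
  have hs2 : ∫ f, s f ^ 2 ∂m ≤ N + N ^ 2 * (b ^ 2 / 2) := by
    simp only [hsq]
    rw [integral_finsetSum _ fun n _ => integrable_finsetSum _ fun n' _ => hIn2 n n']
    calc _ ≤ ∑ n ∈ Z, (1 + N * (b ^ 2 / 2)) := by
          apply Finset.sum_le_sum
          intro n hn
          rw [integral_finsetSum _ fun n' _ => hIn2 n n']
          calc _ ≤ ∑ n' ∈ Z, ((if n = n' then 1 else 0) + b ^ 2 / 2) := by
                apply Finset.sum_le_sum
                intro n' hn'
                rw [integral_indicator_const _ ((hG n).inter (hG n')), smul_eq_mul, mul_one]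
                by_cases h : n = n'
                · rw [if_pos h]
                  have h1 : m.real (G n ∩ G n') ≤ 1 := measureReal_le_one
                  have h2 : 0 < b ^ 2 / 2 := by positivity
                  linarith
                · rw [if_neg h, zero_add]
                  exact hcon n hn n' hn' h
            _ = 1 + N * (b ^ 2 / 2) := by
                rw [Finset.sum_add_distrib, Finset.sum_ite_eq, if_pos hn, Finset.sum_const,
                  nsmul_eq_mul]
      _ = N + N ^ 2 * (b ^ 2 / 2) := by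
          rw [Finset.sum_const, nsmul_eq_mul]
          show N * _ = _
          ring
  have hpt : ∀ f, 2 * (N * b) * s f - (N * b) ^ 2 ≤ s f ^ 2 := fun f => by
    nlinarith [sq_nonneg (s f - N * b)]
  have hint := integral_mono ((hs.const_mul (2 * (N * b))).sub (integrable_const _)) hsqI hpt
  have e1 : ∫ f, (2 * (N * b) * s f - (N * b) ^ 2) ∂m
      = 2 * (N * b) * ∫ f, s f ∂m - (N * b) ^ 2 := by
    rw [integral_sub (hs.const_mul _) (integrable_const _), integral_const_mul, integral_const]
    simp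
  have hint2 : 2 * (N * b) * ∫ f, s f ∂m - (N * b) ^ 2 ≤ N + N ^ 2 * (b ^ 2 / 2) := by
    rw [← e1]
    exact hint.trans hs2
  have h3 : (N * b) ^ 2 ≤ N + N ^ 2 * (b ^ 2 / 2) := by
    have hNb : 0 < N * b := by positivity
    nlinarith
  have h4 : N * (N * b ^ 2) ≤ N * 2 := by nlinarith
  have h5 := le_of_mul_le_mul_left h4 hN0
  linarith

lemma dc_quasi (hm : Measurable (skew T₀ φ)) {c : F → ι} (hc : Measurable c) {b : ℝ} (hb : 0 < b)
    {q : ℕ} (hq : 2 < q * b ^ 2) (w : W) (n₀ : ℕ) (Z : Finset ℕ) (hZ : q ≤ Z.card)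
    (h : ∀ n ∈ Z, dc m T₀ φ c w n n₀ < 1 - b) :
    ∃ n ∈ Z, ∃ n' ∈ Z, n ≠ n' ∧ dc m T₀ φ c w n n' < 1 - b ^ 2 / 2 := by
  have hG : ∀ n, MeasurableSet (Prod.mk w ⁻¹' same T₀ φ c n n₀) := fun n =>
    measurable_prodMk_left (measurableSet_same hm hc n n₀)
  obtain ⟨n, hn, n', hn', hne, hlt⟩ := exists_meet (m := m) hG hb hq Z hZ (fun n hn => by
    have := h n hn
    unfold dc at this
    linarith)
  refine ⟨n, hn, n', hn', hne, ?_⟩
  unfold dc
  have hsub : Prod.mk w ⁻¹' same T₀ φ c n n₀ ∩ Prod.mk w ⁻¹' same T₀ φ c n' n₀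
      ⊆ Prod.mk w ⁻¹' same T₀ φ c n n' := by
    rintro f ⟨h1, h2⟩
    simp only [same, Set.mem_preimage, Set.mem_ofPred_eq] at h1 h2 ⊢
    rw [h1, h2]
  have := measureReal_mono (μ := m) hsub
  linarith

end

end Pool.Agent.H52P
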