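import Pool.Agent.H52P.Mix
import Pool.Agent.H52P.Part

/-! Lower bound for the overlap of conditional laws on a finite partition. -/

set_option linter.style.longLine false
set_option linter.unusedSectionVars false
set_option linter.style.header false

namespace Pool.Agent.H52P

open MeasureTheory Filter Topology
open Pool.Agent.H52M (iter_prod integral_iter exists_cell)

lemma bdd_int {Ω : Type*} [MeasurableSpace Ω] {P : Measure Ω} [IsFiniteMeasure P]
    {f : Ω → ℝ} (hf : Measurable f) {C : ℝ} (h : ∀ ω, |f ω| ≤ C) : Integrable f P :=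
  Pool.Agent.H52M.integrable_of_bdd hf h

section density

variable {Ω Z : Type*} [MeasurableSpace Ω] [MeasurableSpace Z]

/-- conditional probability of an event given a map -/
lemma exists_dens (P : Measure Ω) [IsProbabilityMeasure P] (Λ : Measure Z)
    [IsProbabilityMeasure Λ] {z : Ω → Z} (hz : Measurable z) (hlaw : P.map z = Λ) {E : Set Ω}
    (hE : MeasurableSet E) :
    ∃ Φ : Z → ℝ, Measurable Φ ∧ (∀ x, 0 ≤ Φ x) ∧ (∀ x, Φ x ≤ 1) ∧
      ∀ s : Z → ℝ, Measurable s →
        ∫ ω, s (z ω) * E.indicator (fun _ => (1 : ℝ)) ω ∂P = ∫ x, s x * Φ x ∂Λ := by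
  obtain ⟨Φ, hm, h1, h2⟩ := Pool.Agent.H52M.exists_density P Λ hz hlaw hE
  have h0 : ∀ᵐ x ∂Λ, 0 ≤ Φ x := by
    have hI : Integrable Φ Λ := bdd_int hm h1
    apply ae_nonneg_of_forall_setIntegral_nonneg hI
    intro s hs _
    have := h2 (s.indicator fun _ => (1 : ℝ)) (measurable_const.indicator hs)
    have e : ∫ x in s, Φ x ∂Λ = ∫ x, s.indicator (fun _ => (1 : ℝ)) x * Φ x ∂Λ := by
      rw [← integral_indicator hs]
      apply integral_congr_ae
      filter_upwards with x
      by_cases h : x ∈ s <;> simp [h]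
    rw [e, ← this]
    apply integral_nonneg
    intro ω
    apply mul_nonneg <;> exact Set.indicator_nonneg (fun _ _ => zero_le_one) _
  refine ⟨fun x => max (Φ x) 0, hm.max measurable_const, fun x => le_max_right _ _,
    fun x => max_le (le_of_abs_le (h1 x)) zero_le_one, fun s hs => ?_⟩
  rw [h2 s hs]
  apply integral_congr_ae
  filter_upwards [h0] with x hx
  rw [max_eq_left hx]

lemma dens_set {P : Measure Ω} [IsProbabilityMeasure P] {Λ : Measure Z}
    [IsProbabilityMeasure Λ] {z : Ω → Z} (hz : Measurable z) {E : Set Ω} (hE : MeasurableSet E)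
    {Φ : Z → ℝ} (h : ∀ s : Z → ℝ, Measurable s →
        ∫ ω, s (z ω) * E.indicator (fun _ => (1 : ℝ)) ω ∂P = ∫ x, s x * Φ x ∂Λ)
    {D : Set Z} (hD : MeasurableSet D) : ∫ x in D, Φ x ∂Λ = P.real (z ⁻¹' D ∩ E) := by
  have e : ∫ x in D, Φ x ∂Λ = ∫ x, D.indicator (fun _ => (1 : ℝ)) x * Φ x ∂Λ := by
    rw [← integral_indicator hD]
    apply integral_congr_ae
    filter_upwards with x
    by_cases h : x ∈ D <;> simp [h]
  rw [e, ← h _ (measurable_const.indicator hD), ← integral_indicator_one ((hz hD).inter hE)]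
  apply integral_congr_ae
  filter_upwards with ω
  by_cases h1 : z ω ∈ D <;> by_cases h2 : ω ∈ E <;> simp [h1, h2, Set.indicator]

/-- translated conditional probabilities -/
lemma dens_shift {P : Measure Ω} [IsProbabilityMeasure P] {Λ : Measure Z}
    [IsProbabilityMeasure Λ] {τ : Ω → Ω} (hτ : MeasurePreserving τ P P) (V : Z ≃ᵐ Z)
    (hV : MeasurePreserving V Λ Λ) {z : Ω → Z} (hz : Measurable z)
    (hzτ : ∀ ω, z (τ ω) = V (z ω)) {E : Set Ω} (hE : MeasurableSet E) {Φ : Z → ℝ}
    (hΦm : Measurable Φ)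
    (hΦ : ∀ s : Z → ℝ, Measurable s →
        ∫ ω, s (z ω) * E.indicator (fun _ => (1 : ℝ)) ω ∂P = ∫ x, s x * Φ x ∂Λ)
    {D : Set Z} (hD : MeasurableSet D) (k : ℕ) :
    ∫ x in D, Φ (V^[k] x) ∂Λ = P.real (z ⁻¹' D ∩ τ^[k] ⁻¹' E) := by
  have hVk : Measurable (V^[k]) := hV.measurable.iterate k
  have hVsk : Measurable (V.symm^[k]) := V.symm.measurable.iterate k
  have hτk : Measurable (τ^[k]) := hτ.measurable.iterate k
  have hinv : ∀ x, V.symm^[k] (V^[k] x) = x := by
    intro x
    exact (Function.LeftInverse.iterate V.symm_apply_apply k) x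
  have hzk : ∀ k ω, z (τ^[k] ω) = V^[k] (z ω) := by
    intro k
    induction k with
    | zero => intro ω; rfl
    | succ k ih =>
      intro ω
      rw [Function.iterate_succ_apply, Function.iterate_succ_apply, ih, hzτ]
  let s : Z → ℝ := D.indicator fun _ => (1 : ℝ)
  have hs : Measurable s := measurable_const.indicator hD
  have hs' : Measurable fun x => s (V.symm^[k] x) := hs.comp hVsk
  have he : Measurable (E.indicator fun _ => (1 : ℝ)) := measurable_const.indicator hE
  have a0 : ∫ x in D, Φ (V^[k] x) ∂Λ = ∫ x, s x * Φ (V^[k] x) ∂Λ := by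
    rw [← integral_indicator hD]
    apply integral_congr_ae
    filter_upwards with x
    by_cases h : x ∈ D <;> simp [s, h]
  have a1 : ∫ x, s x * Φ (V^[k] x) ∂Λ = ∫ x, s (V.symm^[k] x) * Φ x ∂Λ := by
    rw [← integral_iter hV (u := fun x => s (V.symm^[k] x) * Φ x) (hs'.mul hΦm) k]
    simp only [hinv]
  have a2 := hΦ (fun x => s (V.symm^[k] x)) hs'
  have a3 : ∫ ω, s (V.symm^[k] (z ω)) * E.indicator (fun _ => (1 : ℝ)) ω ∂P
      = ∫ ω, s (z ω) * E.indicator (fun _ => (1 : ℝ)) (τ^[k] ω) ∂P := by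
    rw [← integral_iter hτ (u := fun ω => s (V.symm^[k] (z ω)) * E.indicator (fun _ => (1 : ℝ)) ω)
      ((hs'.comp hz).mul he) k]
    simp only [hzk, hinv]
  rw [a0, a1, ← a2, a3, ← integral_indicator_one ((hz hD).inter (hτk hE))]
  apply integral_congr_ae
  filter_upwards with ω
  by_cases h1 : z ω ∈ D <;> by_cases h2 : τ^[k] ω ∈ E <;> simp [s, h1, h2, Set.indicator]

end density

section cells

variable {W Y : Type*} [MeasurableSpace W] [MeasurableSpace Y]

lemma exists_cells [MeasurableSpace.CountablyGenerated Y] (lam : Measure W) (μ : Measure Y)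
    [IsProbabilityMeasure μ] {r : ℕ} {Φ : Fin r → W × Y → ℝ} (hΦ : ∀ i, Measurable (Φ i))
    (h0 : ∀ i z, 0 ≤ Φ i z) (h1 : ∀ i z, Φ i z ≤ 1) {D : Set W} (hD : MeasurableSet D)
    (hpos : lam D ≠ 0) {δ : ℝ} (hδ : 0 < δ) :
    ∃ (g : Fin r → Y → ℝ) (A : Set W), (∀ i, Measurable (g i)) ∧ (∀ i y, 0 ≤ g i y) ∧
      (∀ i y, g i y ≤ 1) ∧ MeasurableSet A ∧ A ⊆ D ∧ lam A ≠ 0 ∧
      ∀ w ∈ A, ∀ i, ∫ y, |Φ i (w, y) - g i y| ∂μ < δ := by
  classical
  have key : ∀ s : Finset (Fin r), ∃ (g : Fin r → Y → ℝ) (A : Set W), (∀ i, Measurable (g i)) ∧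
      (∀ i y, 0 ≤ g i y) ∧ (∀ i y, g i y ≤ 1) ∧ MeasurableSet A ∧ A ⊆ D ∧ lam A ≠ 0 ∧
      ∀ w ∈ A, ∀ i ∈ s, ∫ y, |Φ i (w, y) - g i y| ∂μ < δ := by
    intro s
    induction s using Finset.induction_on with
    | empty =>
      exact ⟨fun _ _ => 0, D, fun _ => measurable_const, fun _ _ => le_rfl,
        fun _ _ => zero_le_one, hD, subset_rfl, hpos, fun w _ i hi => by simp at hi⟩
    | insert j s hj ih =>
      obtain ⟨g, A, hg, hg0, hg1, hA, hAD, hApos, hAg⟩ := ih
      obtain ⟨g', A', hg', hgi', hA', hAA', hApos', hAg'⟩ := exists_cell lam μ (hΦ j)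
        (fun z => by rw [abs_of_nonneg (h0 j z)]; exact h1 j z) hA hApos hδ
      let u : Y → ℝ := fun y => max 0 (min 1 (g' y))
      have hu : Measurable u := measurable_const.max (measurable_const.min hg')
      have hu0 : ∀ y, 0 ≤ u y := fun y => le_max_left _ _
      have hu1 : ∀ y, u y ≤ 1 := fun y => max_le zero_le_one (min_le_left _ _)
      refine ⟨Function.update g j u, A', ?_, ?_, ?_, hA', hAA'.trans hAD, hApos', ?_⟩
      · intro i
        by_cases h : i = j
        · subst h; rw [Function.update_self]; exact hu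
        · rw [Function.update_of_ne h]; exact hg i
      · intro i y
        by_cases h : i = j
        · subst h; rw [Function.update_self]; exact hu0 y
        · rw [Function.update_of_ne h]; exact hg0 i y
      · intro i y
        by_cases h : i = j
        · subst h; rw [Function.update_self]; exact hu1 y
        · rw [Function.update_of_ne h]; exact hg1 i y
      · intro w hw i hi
        by_cases h : i = j
        · subst h
          rw [Function.update_self]
          refine lt_of_le_of_lt ?_ (hAg' w hw)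
          have m1 : Measurable fun y => Φ i (w, y) := (hΦ i).comp measurable_prodMk_left
          apply integral_mono
          · exact (bdd_int (C := 1) (m1.sub hu).abs fun y => by
              rw [abs_abs, abs_le]
              have a := h0 i (w, y)
              have b := h1 i (w, y)
              have c := hu0 y
              have d := hu1 y
              constructor <;> linarith)
          · exact ((bdd_int (C := 1) m1 fun y => by
              rw [abs_of_nonneg (h0 i _)]; exact h1 i _).sub hgi').abs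
          · intro y
            simp only [u]
            have a := h0 i (w, y)
            have b := h1 i (w, y)
            rcases le_total (g' y) 1 with h2 | h2
            · rw [min_eq_right h2]
              rcases le_total 0 (g' y) with h3 | h3
              · rw [max_eq_right h3]
              · rw [max_eq_left h3, sub_zero, abs_of_nonneg a, abs_of_nonneg (by linarith)]
                linarith
            · rw [min_eq_left h2, max_eq_right zero_le_one, abs_of_nonpos (by linarith),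
                abs_of_nonpos (by linarith)]
              linarith
        · rw [Function.update_of_ne h]
          exact hAg w (hAA' hw) i (Finset.mem_of_mem_insert_of_ne hi h)
  obtain ⟨g, A, hg, hg0, hg1, hA, hAD, hApos, hAg⟩ := key Finset.univ
  exact ⟨g, A, hg, hg0, hg1, hA, hAD, hApos, fun w hw i => hAg w hw i (Finset.mem_univ i)⟩

lemma min_close (a b a' b' : ℝ) : min a b ≤ min a' b' + |a - a'| + |b - b'| := by
  have h1 : a ≤ a' + |a - a'| := by linarith [le_abs_self (a - a')]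
  have h2 : b ≤ b' + |b - b'| := by linarith [le_abs_self (b - b')]
  have h3 := abs_nonneg (a - a')
  have h4 := abs_nonneg (b - b')
  rcases le_total a' b' with h | h
  · rw [min_eq_left h]
    exact (min_le_left a b).trans (by linarith)
  · rw [min_eq_right h]
    exact (min_le_right a b).trans (by linarith)

end cells

section main

variable {Ω W Y : Type*} [MeasurableSpace Ω] [MeasurableSpace W] [MeasurableSpace Y]

/-- overlap of the conditional probabilities at two independent points -/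
noncomputable def overlap (μ : Measure Y) {r : ℕ} (Φ : Fin r → W × Y → ℝ) (x : W) : ℝ :=
  ∑ i, ∫ y, ∫ y', min (Φ i (x, y)) (Φ i (x, y')) ∂μ ∂μ

lemma measurable_overlap (μ : Measure Y) [IsProbabilityMeasure μ] {r : ℕ}
    {Φ : Fin r → W × Y → ℝ} (hΦ : ∀ i, Measurable (Φ i)) : Measurable (overlap μ Φ) := by
  apply Finset.measurable_fun_sum
  intro i _
  have h1 : Measurable fun p : (W × Y) × Y => min (Φ i p.1) (Φ i (p.1.1, p.2)) :=
    ((hΦ i).comp measurable_fst).min
      ((hΦ i).comp ((measurable_fst.comp measurable_fst).prodMk measurable_snd))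
  have h2 : Measurable fun p : W × Y => ∫ y', min (Φ i p) (Φ i (p.1, y')) ∂μ :=
    (h1.stronglyMeasurable.integral_prod_right').measurable
  exact (h2.stronglyMeasurable.integral_prod_right').measurable

/-- lower bound for the overlap -/
theorem overlap_ge (P : Measure Ω) [IsProbabilityMeasure P] (lam : Measure W)
    [IsProbabilityMeasure lam] (μ : Measure Y) [IsProbabilityMeasure μ]
    [MeasurableSpace.CountablyGenerated Y]
    {τ : Ω → Ω} (hτ : MeasurePreserving τ P P) (S : W ≃ᵐ W) (hS : MeasurePreserving S lam lam)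
    (R : Y ≃ᵐ Y) (hR : MeasurePreserving R μ μ) (hmix : Mix μ R)
    {w : Ω → W} (hw : Measurable w) (hwτ : ∀ ω, w (τ ω) = S (w ω))
    {y : Ω → Y} (hy : Measurable y) (hyτ : ∀ ω, y (τ ω) = R (y ω))
    (hlaw : P.map (fun ω => (w ω, y ω)) = lam.prod μ)
    {r : ℕ} {κ : Ω → Fin r} (hκ : Measurable κ)
    {d : W → ℕ → ℕ → ℝ} (hd : ∀ n m, Measurable fun x => d x n m)
    (hd0 : ∀ x n m, 0 ≤ d x n m) (hd1 : ∀ x n m, d x n m ≤ 1)
    (hde : ∀ k, ∀ A : Set W, MeasurableSet A → ∫ x in A, (1 - d x 0 k) ∂lam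
      = P.real (w ⁻¹' A ∩ {ω | κ (τ^[k] ω) = κ ω}))
    {ε : ℝ} (hjr : ∀ A : Set W, MeasurableSet A → lam A ≠ 0 → ∀ k₀ : ℕ,
      ∃ k ≥ k₀, lam (A ∩ {x | d x 0 k < ε} ∩ S^[k] ⁻¹' A) ≠ 0)
    {Φ : Fin r → W × Y → ℝ} (hΦm : ∀ i, Measurable (Φ i)) (hΦ0 : ∀ i z, 0 ≤ Φ i z)
    (hΦ1 : ∀ i z, Φ i z ≤ 1)
    (hΦ : ∀ i, ∀ s : W × Y → ℝ, Measurable s →
        ∫ ω, s (w ω, y ω) * {ω | κ ω = i}.indicator (fun _ => (1 : ℝ)) ω ∂P
          = ∫ z, s z * Φ i z ∂(lam.prod μ)) :
    ∀ᵐ x ∂lam, 1 - ε ≤ overlap μ Φ x := by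
  classical
  let V : W × Y ≃ᵐ W × Y := S.prodCongr R
  have hVfun : (V : W × Y → W × Y) = Prod.map S R := rfl
  have hV : MeasurePreserving V (lam.prod μ) (lam.prod μ) := hS.prod hR
  have hz : Measurable fun ω => (w ω, y ω) := hw.prodMk hy
  have hzτ : ∀ ω, (w (τ ω), y (τ ω)) = V (w ω, y ω) := by
    intro ω
    rw [hwτ, hyτ]
    rfl
  have hVk : ∀ k (x : W) (v : Y), V^[k] (x, v) = (S^[k] x, R^[k] v) := by
    intro k x v
    rw [hVfun, iter_prod]
  have hmτ : ∀ k, Measurable τ^[k] := fun k => hτ.measurable.iterate k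
  have hmRk : ∀ k, Measurable R^[k] := fun k => hR.measurable.iterate k
  have hE : ∀ i, MeasurableSet {ω | κ ω = i} := fun i => hκ (measurableSet_singleton i)
  have hsame : ∀ k, MeasurableSet {ω | κ (τ^[k] ω) = κ ω} := fun k =>
    measurableSet_eq_fun (hκ.comp (hmτ k)) hκ
  have hmk : ∀ i k, Measurable fun z : W × Y => min (Φ i z) (Φ i (V^[k] z)) := fun i k =>
    (hΦm i).min ((hΦm i).comp (hV.measurable.iterate k))
  have hbk : ∀ i k (z : W × Y), |min (Φ i z) (Φ i (V^[k] z))| ≤ 1 := fun i k z => by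
    rw [abs_of_nonneg (le_min (hΦ0 _ _) (hΦ0 _ _))]
    exact (min_le_left _ _).trans (hΦ1 _ _)
  have hIk : ∀ i k, Integrable (fun z : W × Y => min (Φ i z) (Φ i (V^[k] z))) (lam.prod μ) :=
    fun i k => bdd_int (hmk i k) (hbk i k)
  -- the joint event
  have hjoint : ∀ i k, ∀ D : Set (W × Y), MeasurableSet D →
      P.real ((fun ω => (w ω, y ω)) ⁻¹' D ∩ ({ω | κ ω = i} ∩ {ω | κ (τ^[k] ω) = κ ω}))
        ≤ ∫ z in D, min (Φ i z) (Φ i (V^[k] z)) ∂(lam.prod μ) := by
    intro i k D hD
    obtain ⟨Ψ, hΨm, hΨ0, hΨ1, hΨ⟩ := exists_dens P (lam.prod μ) hz hlaw ((hE i).inter (hsame k))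
    have hΨI : Integrable Ψ (lam.prod μ) := bdd_int (C := 1) hΨm fun z => by
      rw [abs_of_nonneg (hΨ0 z)]; exact hΨ1 z
    have hΦI : Integrable (Φ i) (lam.prod μ) := bdd_int (C := 1) (hΦm i) fun z => by
      rw [abs_of_nonneg (hΦ0 i z)]; exact hΦ1 i z
    have hΦkI : Integrable (fun z => Φ i (V^[k] z)) (lam.prod μ) :=
      bdd_int (C := 1) ((hΦm i).comp (hV.measurable.iterate k)) fun z => by
        rw [abs_of_nonneg (hΦ0 i _)]; exact hΦ1 i _
    have l1 : Ψ ≤ᵐ[lam.prod μ] Φ i := by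
      apply ae_le_of_forall_setIntegral_le hΨI hΦI
      intro D hD _
      rw [dens_set hz ((hE i).inter (hsame k)) hΨ hD, dens_set hz (hE i) (hΦ i) hD]
      exact measureReal_mono (Set.inter_subset_inter_right _ Set.inter_subset_left)
    have l2 : Ψ ≤ᵐ[lam.prod μ] fun z => Φ i (V^[k] z) := by
      apply ae_le_of_forall_setIntegral_le hΨI hΦkI
      intro D hD _
      rw [dens_set hz ((hE i).inter (hsame k)) hΨ hD,
        dens_shift hτ V hV hz hzτ (hE i) (hΦm i) (hΦ i) hD k]
      refine measureReal_mono ?_ (measure_ne_top _ _)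
      rintro ω ⟨h1, h2, h3⟩
      refine ⟨h1, ?_⟩
      simp only [Set.mem_preimage, Set.mem_ofPred_eq] at h2 h3 ⊢
      rw [h3, h2]
    rw [← dens_set hz ((hE i).inter (hsame k)) hΨ hD]
    apply setIntegral_mono_ae hΨI.integrableOn (hIk i k).integrableOn
    filter_upwards [l1, l2] with z h1 h2
    exact le_min h1 h2
  -- sections
  have hsect : ∀ᵐ x ∂lam, ∀ k, 1 - d x 0 k
      ≤ ∑ i, ∫ v, min (Φ i (x, v)) (Φ i (S^[k] x, R^[k] v)) ∂μ := by
    rw [ae_all_iff]
    intro k
    have hI2 : ∀ i, Integrable (fun x => ∫ v, min (Φ i (x, v)) (Φ i (S^[k] x, R^[k] v)) ∂μ) lam := by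
      intro i
      have := (hIk i k).integral_prod_left
      simpa only [hVk] using this
    apply ae_le_of_forall_setIntegral_le (f := fun x => 1 - d x 0 k)
      (g := fun x => ∑ i, ∫ v, min (Φ i (x, v)) (Φ i (S^[k] x, R^[k] v)) ∂μ)
    · apply bdd_int (C := 1) (measurable_const.sub (hd 0 k))
      intro x
      have a := hd0 x 0 k
      have b := hd1 x 0 k
      simp only [Pi.sub_apply]
      rw [abs_le]
      constructor <;> linarith
    · exact integrable_finsetSum _ fun i _ => hI2 i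
    · intro A hA _
      rw [hde k A hA, integral_finsetSum _ fun i _ => (hI2 i).integrableOn]
      have e1 : w ⁻¹' A ∩ {ω | κ (τ^[k] ω) = κ ω}
          = ⋃ i, ((fun ω => (w ω, y ω)) ⁻¹' (A ×ˢ Set.univ)
            ∩ ({ω | κ ω = i} ∩ {ω | κ (τ^[k] ω) = κ ω})) := by
        ext ω
        simp
      rw [e1]
      refine (measureReal_iUnion_fintype_le _).trans ?_
      apply Finset.sum_le_sum
      intro i _
      refine (hjoint i k _ (hA.prod MeasurableSet.univ)).trans (le_of_eq ?_)
      rw [setIntegral_prod _ (hIk i k).integrableOn]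
      simp only [hVk, setIntegral_univ]
  -- the contradiction
  by_contra hcon
  have hO := measurable_overlap (W := W) μ hΦm
  obtain ⟨ξ, hξ, hpos⟩ : ∃ ξ : ℝ, 0 < ξ ∧ lam {x | overlap μ Φ x ≤ 1 - ε - ξ} ≠ 0 := by
    by_contra hall
    push Not at hall
    apply hcon
    have h1 : ∀ᵐ x ∂lam, ∀ n : ℕ, 1 - ε - 1 / ((n : ℝ) + 1) < overlap μ Φ x := by
      rw [ae_all_iff]
      intro n
      have := hall (1 / ((n : ℝ) + 1)) (by positivity)
      rw [ae_iff]
      simpa only [not_lt] using this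
    filter_upwards [h1] with x hx
    apply le_of_forall_pos_le_add
    intro η hη
    obtain ⟨n, hn⟩ := exists_nat_one_div_lt hη
    linarith [hx n]
  have hD₀ : MeasurableSet {x | overlap μ Φ x ≤ 1 - ε - ξ} := measurableSet_le hO measurable_const
  let δ : ℝ := ξ / (8 * (r + 1))
  have hδ : 0 < δ := by positivity
  have hrδ : (r : ℝ) * δ ≤ ξ / 8 := by
    have h1 : (r : ℝ) ≤ r + 1 := by linarith
    calc (r : ℝ) * δ ≤ (r + 1) * δ := mul_le_mul_of_nonneg_right h1 hδ.le
      _ = ξ / 8 := by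
        simp only [δ]
        field_simp
  obtain ⟨g, A, hg, hg0, hg1, hA, hAD, hApos, hAg⟩ := exists_cells lam μ hΦm hΦ0 hΦ1 hD₀ hpos hδ
  -- mixing
  obtain ⟨k₀, hk₀⟩ : ∃ k₀ : ℕ, ∀ k ≥ k₀, ∀ i, ∫ v, min (g i v) (g i (R^[k] v)) ∂μ
      ≤ ∫ v, ∫ v', min (g i v) (g i v') ∂μ ∂μ + δ := by
    have h1 : ∀ i, ∀ᶠ k in atTop, ∫ v, min (g i v) (g i (R^[k] v)) ∂μ
        ≤ ∫ v, ∫ v', min (g i v) (g i v') ∂μ ∂μ + δ := by
      intro i
      have := mix_min hR hmix (hg i) (hg0 i) (hg1 i)
      exact ((tendsto_order.mp this).2 _ (by linarith)).mono fun k hk => hk.le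
    have h2 := eventually_all.mpr h1
    obtain ⟨k₀, h3⟩ := eventually_atTop.mp h2
    exact ⟨k₀, h3⟩
  obtain ⟨k, hk, hkne⟩ := hjr A hA hApos k₀
  obtain ⟨x, hx, hx2⟩ : ∃ x ∈ A ∩ {x | d x 0 k < ε} ∩ S^[k] ⁻¹' A, ∀ k, 1 - d x 0 k
      ≤ ∑ i, ∫ v, min (Φ i (x, v)) (Φ i (S^[k] x, R^[k] v)) ∂μ := by
    by_contra hcon2
    push Not at hcon2
    apply hkne
    rw [← nonpos_iff_eq_zero]
    have hsub : A ∩ {x | d x 0 k < ε} ∩ S^[k] ⁻¹' A
        ⊆ {x | ¬ ∀ k, 1 - d x 0 k
          ≤ ∑ i, ∫ v, min (Φ i (x, v)) (Φ i (S^[k] x, R^[k] v)) ∂μ} := by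
      intro x hx
      simp only [Set.mem_ofPred_eq, not_forall, not_le]
      exact hcon2 x hx
    exact (measure_mono hsub).trans (ae_iff.mp hsect).le
  have hxA : x ∈ A := hx.1.1
  have hxS : S^[k] x ∈ A := hx.2
  have hxd : d x 0 k < ε := hx.1.2
  have hmx : ∀ i (x : W), Measurable fun v => Φ i (x, v) := fun i x =>
    (hΦm i).comp measurable_prodMk_left
  have hdiff : ∀ i (x : W), Measurable fun v => |Φ i (x, v) - g i v| := fun i x =>
    ((hmx i x).sub (hg i)).abs
  have hdiffI : ∀ i (x : W), Integrable (fun v => |Φ i (x, v) - g i v|) μ := fun i x =>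
    bdd_int (C := 1) (hdiff i x) fun v => by
      rw [abs_abs, abs_le]
      have a := hΦ0 i (x, v)
      have b := hΦ1 i (x, v)
      have c := hg0 i v
      have d := hg1 i v
      constructor <;> linarith
  have hone : ∀ i, ∫ v, min (Φ i (x, v)) (Φ i (S^[k] x, R^[k] v)) ∂μ
      ≤ ∫ v, ∫ v', min (Φ i (x, v)) (Φ i (x, v')) ∂μ ∂μ + 5 * δ := by
    intro i
    -- first replacement
    have mR : Measurable fun v => |Φ i (S^[k] x, R^[k] v) - g i (R^[k] v)| :=
      (hdiff i (S^[k] x)).comp (hmRk k)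
    have s1 : ∫ v, min (Φ i (x, v)) (Φ i (S^[k] x, R^[k] v)) ∂μ
        ≤ ∫ v, (min (g i v) (g i (R^[k] v)) + |Φ i (x, v) - g i v|
          + |Φ i (S^[k] x, R^[k] v) - g i (R^[k] v)|) ∂μ := by
      apply integral_mono
      · apply bdd_int (C := 1) ((hmx i x).min ((hmx i (S^[k] x)).comp (hmRk k)))
        intro v
        simp only [Function.comp_apply]
        rw [abs_of_nonneg (le_min (hΦ0 _ _) (hΦ0 _ _))]
        exact (min_le_left _ _).trans (hΦ1 _ _)
      · refine Integrable.add (Integrable.add ?_ (hdiffI i x)) ?_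
        · apply bdd_int (C := 1) ((hg i).min ((hg i).comp (hmRk k)))
          intro v
          simp only [Function.comp_apply]
          rw [abs_of_nonneg (le_min (hg0 _ _) (hg0 _ _))]
          exact (min_le_left _ _).trans (hg1 _ _)
        · exact (hR.iterate k).integrable_comp_of_integrable (hdiffI i (S^[k] x))
      · intro v
        exact min_close _ _ _ _
    have iR : ∫ v, |Φ i (S^[k] x, R^[k] v) - g i (R^[k] v)| ∂μ
        = ∫ v, |Φ i (S^[k] x, v) - g i v| ∂μ :=
      integral_iter hR (u := fun v => |Φ i (S^[k] x, v) - g i v|) (hdiff i (S^[k] x)) k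
    have s2 : ∫ v, (min (g i v) (g i (R^[k] v)) + |Φ i (x, v) - g i v|
          + |Φ i (S^[k] x, R^[k] v) - g i (R^[k] v)|) ∂μ
        = ∫ v, min (g i v) (g i (R^[k] v)) ∂μ + ∫ v, |Φ i (x, v) - g i v| ∂μ
          + ∫ v, |Φ i (S^[k] x, v) - g i v| ∂μ := by
      rw [← iR]
      have j1 : Integrable (fun v => min (g i v) (g i (R^[k] v))) μ := by
        apply bdd_int (C := 1) ((hg i).min ((hg i).comp (hmRk k)))
        intro v
        simp only [Function.comp_apply]
        rw [abs_of_nonneg (le_min (hg0 _ _) (hg0 _ _))]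
        exact (min_le_left _ _).trans (hg1 _ _)
      have j2 : Integrable (fun v => |Φ i (S^[k] x, R^[k] v) - g i (R^[k] v)|) μ :=
        (hR.iterate k).integrable_comp_of_integrable (hdiffI i (S^[k] x))
      have j3 : Integrable (fun v => min (g i v) (g i (R^[k] v)) + |Φ i (x, v) - g i v|) μ :=
        j1.add (hdiffI i x)
      rw [integral_add j3 j2, integral_add j1 (hdiffI i x)]
    -- second replacement
    have hgI : Integrable (fun p : Y × Y => min (g i p.1) (g i p.2)) (μ.prod μ) := by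
      apply bdd_int (C := 1) (((hg i).comp measurable_fst).min ((hg i).comp measurable_snd))
      intro p
      simp only [Function.comp_apply]
      rw [abs_of_nonneg (le_min (hg0 _ _) (hg0 _ _))]
      exact (min_le_left _ _).trans (hg1 _ _)
    have hPI : Integrable (fun p : Y × Y => min (Φ i (x, p.1)) (Φ i (x, p.2))) (μ.prod μ) := by
      apply bdd_int (C := 1) (((hmx i x).comp measurable_fst).min ((hmx i x).comp measurable_snd))
      intro p
      simp only [Function.comp_apply]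
      rw [abs_of_nonneg (le_min (hΦ0 _ _) (hΦ0 _ _))]
      exact (min_le_left _ _).trans (hΦ1 _ _)
    have d1I : Integrable (fun p : Y × Y => |Φ i (x, p.1) - g i p.1|) (μ.prod μ) :=
      (hdiffI i x).comp_fst μ
    have d2I : Integrable (fun p : Y × Y => |Φ i (x, p.2) - g i p.2|) (μ.prod μ) :=
      (hdiffI i x).comp_snd μ
    have s3 : ∫ v, ∫ v', min (g i v) (g i v') ∂μ ∂μ
        ≤ ∫ v, ∫ v', min (Φ i (x, v)) (Φ i (x, v')) ∂μ ∂μ + 2 * δ := by
      rw [← integral_prod (fun p : Y × Y => min (g i p.1) (g i p.2)) hgI,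
        ← integral_prod (fun p : Y × Y => min (Φ i (x, p.1)) (Φ i (x, p.2))) hPI]
      calc ∫ p : Y × Y, min (g i p.1) (g i p.2) ∂(μ.prod μ)
          ≤ ∫ p : Y × Y, (min (Φ i (x, p.1)) (Φ i (x, p.2)) + |Φ i (x, p.1) - g i p.1|
            + |Φ i (x, p.2) - g i p.2|) ∂(μ.prod μ) := by
            apply integral_mono hgI ((hPI.add d1I).add d2I)
            intro p
            have := min_close (g i p.1) (g i p.2) (Φ i (x, p.1)) (Φ i (x, p.2))
            rw [abs_sub_comm (g i p.1), abs_sub_comm (g i p.2)] at this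
            exact this
        _ = ∫ p : Y × Y, min (Φ i (x, p.1)) (Φ i (x, p.2)) ∂(μ.prod μ)
            + ∫ p : Y × Y, |Φ i (x, p.1) - g i p.1| ∂(μ.prod μ)
            + ∫ p : Y × Y, |Φ i (x, p.2) - g i p.2| ∂(μ.prod μ) := by
            have j : Integrable (fun p : Y × Y => min (Φ i (x, p.1)) (Φ i (x, p.2))
              + |Φ i (x, p.1) - g i p.1|) (μ.prod μ) := hPI.add d1I
            rw [integral_add j d2I, integral_add hPI d1I]
        _ ≤ _ := by
            have f1 : ∫ p : Y × Y, |Φ i (x, p.1) - g i p.1| ∂(μ.prod μ)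
                = ∫ v, |Φ i (x, v) - g i v| ∂μ := by
              rw [integral_prod _ d1I]
              simp
            have f2 : ∫ p : Y × Y, |Φ i (x, p.2) - g i p.2| ∂(μ.prod μ)
                = ∫ v, |Φ i (x, v) - g i v| ∂μ := by
              rw [integral_prod _ d2I]
              simp
            have f3 := hAg x hxA i
            rw [f1, f2]
            linarith
    have f1 := hAg x hxA i
    have f2 := hAg _ hxS i
    have f3 := hk₀ k hk i
    rw [s2] at s1
    linarith
  have hsum : ∑ i, ∫ v, min (Φ i (x, v)) (Φ i (S^[k] x, R^[k] v)) ∂μ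
      ≤ overlap μ Φ x + r * (5 * δ) := by
    unfold overlap
    calc _ ≤ ∑ i, (∫ v, ∫ v', min (Φ i (x, v)) (Φ i (x, v')) ∂μ ∂μ + 5 * δ) :=
          Finset.sum_le_sum fun i _ => hone i
      _ = _ := by
          rw [Finset.sum_add_distrib, Finset.sum_const, Finset.card_univ, Fintype.card_fin,
            nsmul_eq_mul]
  have hxO : overlap μ Φ x ≤ 1 - ε - ξ := hAD hxA
  have := hx2 k
  linarith

end main

end Pool.Agent.H52P
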