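import Pool.Agent.H52M.Pi

/-! Mixing maps: products, powers, factors, ergodicity, minima. -/

set_option linter.style.longLine false
set_option linter.unusedSectionVars false
set_option linter.style.header false

namespace Pool.Agent.H52P

open MeasureTheory Filter Topology
open Pool.Agent.H52M (integrable_of_bdd iter_prod)

/-- mixing -/
def Mix {Y : Type*} [MeasurableSpace Y] (μ : Measure Y) (R : Y → Y) : Prop :=
  ∀ A B : Set Y, MeasurableSet A → MeasurableSet B →
    Tendsto (fun k : ℕ => μ.real (A ∩ R^[k] ⁻¹' B)) atTop (𝓝 (μ.real A * μ.real B))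

section factor

variable {Y Z : Type*} [MeasurableSpace Y] [MeasurableSpace Z]

lemma Mix.factor {μ : Measure Y} {R : Y → Y} {ρ : Measure Z} {R' : Z → Z} {p : Y → Z}
    (h : Mix μ R) (hp : MeasurePreserving p μ ρ) (hc : ∀ y, p (R y) = R' (p y))
    (hR' : Measurable R') : Mix ρ R' := by
  intro A B hA hB
  have hck : ∀ k y, p (R^[k] y) = R'^[k] (p y) := by
    intro k
    induction k with
    | zero => intro y; rfl
    | succ k ih => intro y; rw [Function.iterate_succ_apply, Function.iterate_succ_apply, ih, hc]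
  have e : ∀ C, MeasurableSet C → ρ.real C = μ.real (p ⁻¹' C) := by
    intro C hC
    rw [measureReal_def, measureReal_def, hp.measure_preimage hC.nullMeasurableSet]
  have e2 : ∀ k, ρ.real (A ∩ R'^[k] ⁻¹' B) = μ.real (p ⁻¹' A ∩ R^[k] ⁻¹' (p ⁻¹' B)) := by
    intro k
    rw [e _ (hA.inter ((hR'.iterate k) hB))]
    congr 1
    ext y
    simp only [Set.mem_preimage, Set.mem_inter_iff, hck]
  simp only [e2]
  rw [e A hA, e B hB]
  exact h _ _ (hp.measurable hA) (hp.measurable hB)

end factor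

section prod

variable {Y₁ Y₂ : Type*} [MeasurableSpace Y₁] [MeasurableSpace Y₂]

theorem Mix.prod {μ₁ : Measure Y₁} {μ₂ : Measure Y₂} [IsProbabilityMeasure μ₁]
    [IsProbabilityMeasure μ₂] {R₁ : Y₁ → Y₁} {R₂ : Y₂ → Y₂} (hR₁ : MeasurePreserving R₁ μ₁ μ₁)
    (hR₂ : MeasurePreserving R₂ μ₂ μ₂) (h₁ : Mix μ₁ R₁) (h₂ : Mix μ₂ R₂) :
    Mix (μ₁.prod μ₂) (Prod.map R₁ R₂) := by
  have hR : MeasurePreserving (Prod.map R₁ R₂) (μ₁.prod μ₂) (μ₁.prod μ₂) := hR₁.prod hR₂
  have hmR : ∀ k, Measurable (Prod.map R₁ R₂)^[k] := fun k => hR.measurable.iterate k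
  -- rectangles
  have hrr : ∀ (A₁ B₁ : Set Y₁) (A₂ B₂ : Set Y₂), MeasurableSet A₁ → MeasurableSet B₁ →
      MeasurableSet A₂ → MeasurableSet B₂ →
      Tendsto (fun k : ℕ => (μ₁.prod μ₂).real ((A₁ ×ˢ A₂) ∩ (Prod.map R₁ R₂)^[k] ⁻¹' (B₁ ×ˢ B₂)))
        atTop (𝓝 ((μ₁.prod μ₂).real (A₁ ×ˢ A₂) * (μ₁.prod μ₂).real (B₁ ×ˢ B₂))) := by
    intro A₁ B₁ A₂ B₂ hA₁ hB₁ hA₂ hB₂
    have e : ∀ k, (μ₁.prod μ₂).real ((A₁ ×ˢ A₂) ∩ (Prod.map R₁ R₂)^[k] ⁻¹' (B₁ ×ˢ B₂))
        = μ₁.real (A₁ ∩ R₁^[k] ⁻¹' B₁) * μ₂.real (A₂ ∩ R₂^[k] ⁻¹' B₂) := by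
      intro k
      have : (A₁ ×ˢ A₂) ∩ (Prod.map R₁ R₂)^[k] ⁻¹' (B₁ ×ˢ B₂)
          = (A₁ ∩ R₁^[k] ⁻¹' B₁) ×ˢ (A₂ ∩ R₂^[k] ⁻¹' B₂) := by
        ext z
        simp only [Set.mem_inter_iff, Set.mem_prod, Set.mem_preimage, iter_prod]
        tauto
      rw [this, measureReal_prod_prod]
    simp only [e, measureReal_prod_prod]
    have := (h₁ A₁ B₁ hA₁ hB₁).mul (h₂ A₂ B₂ hA₂ hB₂)
    convert this using 2
    ring
  -- general first set
  have hgr : ∀ (B₁ : Set Y₁) (B₂ : Set Y₂), MeasurableSet B₁ → MeasurableSet B₂ →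
      ∀ A : Set (Y₁ × Y₂), MeasurableSet A →
      Tendsto (fun k : ℕ => (μ₁.prod μ₂).real (A ∩ (Prod.map R₁ R₂)^[k] ⁻¹' (B₁ ×ˢ B₂)))
        atTop (𝓝 ((μ₁.prod μ₂).real A * (μ₁.prod μ₂).real (B₁ ×ˢ B₂))) := by
    intro B₁ B₂ hB₁ hB₂ A hA
    have hB : MeasurableSet (B₁ ×ˢ B₂) := hB₁.prod hB₂
    refine MeasurableSpace.induction_on_inter (C := fun A _ =>
      Tendsto (fun k : ℕ => (μ₁.prod μ₂).real (A ∩ (Prod.map R₁ R₂)^[k] ⁻¹' (B₁ ×ˢ B₂)))
        atTop (𝓝 ((μ₁.prod μ₂).real A * (μ₁.prod μ₂).real (B₁ ×ˢ B₂)))) generateFrom_prod.symm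
      isPiSystem_prod ?_ ?_ ?_ ?_ A hA
    · simp
    · rintro A ⟨A₁, hA₁, A₂, hA₂, rfl⟩
      exact hrr A₁ B₁ A₂ B₂ hA₁ hB₁ hA₂ hB₂
    · intro A hA ih
      have e : ∀ k, (μ₁.prod μ₂).real (Aᶜ ∩ (Prod.map R₁ R₂)^[k] ⁻¹' (B₁ ×ˢ B₂))
          = (μ₁.prod μ₂).real (B₁ ×ˢ B₂)
            - (μ₁.prod μ₂).real (A ∩ (Prod.map R₁ R₂)^[k] ⁻¹' (B₁ ×ˢ B₂)) := by
        intro k
        have h1 := measureReal_inter_add_sdiff (μ := μ₁.prod μ₂)
          (s := (Prod.map R₁ R₂)^[k] ⁻¹' (B₁ ×ˢ B₂)) hA
        have h2 : (μ₁.prod μ₂).real ((Prod.map R₁ R₂)^[k] ⁻¹' (B₁ ×ˢ B₂))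
            = (μ₁.prod μ₂).real (B₁ ×ˢ B₂) := by
          rw [measureReal_def, (hR.iterate k).measure_preimage hB.nullMeasurableSet]
          rfl
        rw [h2, Set.sdiff_eq, Set.inter_comm _ A, Set.inter_comm _ Aᶜ] at h1
        linarith
      simp only [e]
      have := ih.const_sub ((μ₁.prod μ₂).real (B₁ ×ˢ B₂))
      convert this using 2
      rw [probReal_compl_eq_one_sub hA]
      ring
    · intro f hd hm ih
      have e : ∀ S : Set (Y₁ × Y₂), MeasurableSet S → (μ₁.prod μ₂).real ((⋃ i, f i) ∩ S)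
          = ∑' i, (μ₁.prod μ₂).real (f i ∩ S) := by
        intro S hS
        rw [Set.iUnion_inter, measureReal_def, measure_iUnion, ENNReal.tsum_toReal_eq]
        · rfl
        · exact fun i => measure_ne_top _ _
        · intro i j hij
          exact (hd hij).mono Set.inter_subset_left Set.inter_subset_left
        · exact fun i => (hm i).inter hS
      have e2 : (μ₁.prod μ₂).real (⋃ i, f i) = ∑' i, (μ₁.prod μ₂).real (f i) := by
        have := e Set.univ MeasurableSet.univ
        simpa using this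
      rw [e2, ← tsum_mul_right]
      simp only [fun k => e _ (hmR k hB)]
      apply tendsto_tsum_of_dominated_convergence
        (bound := fun i => ((μ₁.prod μ₂) (f i)).toReal) (summable_measure_toReal hm hd) ih
      filter_upwards with k i
      rw [Real.norm_eq_abs, abs_of_nonneg measureReal_nonneg]
      exact measureReal_mono Set.inter_subset_left
  -- general second set
  intro A B hA hB
  refine MeasurableSpace.induction_on_inter (C := fun B _ =>
    Tendsto (fun k : ℕ => (μ₁.prod μ₂).real (A ∩ (Prod.map R₁ R₂)^[k] ⁻¹' B))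
      atTop (𝓝 ((μ₁.prod μ₂).real A * (μ₁.prod μ₂).real B))) generateFrom_prod.symm
    isPiSystem_prod ?_ ?_ ?_ ?_ B hB
  · simp
  · rintro B ⟨B₁, hB₁, B₂, hB₂, rfl⟩
    exact hgr B₁ B₂ hB₁ hB₂ A hA
  · intro B hB ih
    have e : ∀ k, (μ₁.prod μ₂).real (A ∩ (Prod.map R₁ R₂)^[k] ⁻¹' Bᶜ)
        = (μ₁.prod μ₂).real A - (μ₁.prod μ₂).real (A ∩ (Prod.map R₁ R₂)^[k] ⁻¹' B) := by
      intro k
      have h1 := measureReal_inter_add_sdiff (μ := μ₁.prod μ₂) (s := A) (hmR k hB)
      rw [Set.sdiff_eq] at h1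
      rw [Set.preimage_compl]
      linarith
    simp only [e]
    have := ih.const_sub ((μ₁.prod μ₂).real A)
    convert this using 2
    rw [probReal_compl_eq_one_sub hB]
    ring
  · intro f hd hm ih
    have e : ∀ k, (μ₁.prod μ₂).real (A ∩ (Prod.map R₁ R₂)^[k] ⁻¹' (⋃ i, f i))
        = ∑' i, (μ₁.prod μ₂).real (A ∩ (Prod.map R₁ R₂)^[k] ⁻¹' (f i)) := by
      intro k
      rw [Set.preimage_iUnion, Set.inter_iUnion, measureReal_def, measure_iUnion,
        ENNReal.tsum_toReal_eq]
      · rfl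
      · exact fun i => measure_ne_top _ _
      · intro i j hij
        exact ((hd hij).preimage _).mono Set.inter_subset_right Set.inter_subset_right
      · exact fun i => hA.inter (hmR k (hm i))
    have e2 : (μ₁.prod μ₂).real (⋃ i, f i) = ∑' i, (μ₁.prod μ₂).real (f i) := by
      rw [measureReal_def, measure_iUnion hd hm, ENNReal.tsum_toReal_eq]
      · rfl
      · exact fun i => measure_ne_top _ _
    rw [e2, ← tsum_mul_left]
    simp only [e]
    apply tendsto_tsum_of_dominated_convergence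
      (bound := fun i => ((μ₁.prod μ₂) (f i)).toReal) (summable_measure_toReal hm hd) ih
    filter_upwards with k i
    rw [Real.norm_eq_abs, abs_of_nonneg measureReal_nonneg]
    calc (μ₁.prod μ₂).real (A ∩ (Prod.map R₁ R₂)^[k] ⁻¹' (f i))
        ≤ (μ₁.prod μ₂).real ((Prod.map R₁ R₂)^[k] ⁻¹' (f i)) :=
          measureReal_mono Set.inter_subset_right
      _ = ((μ₁.prod μ₂) (f i)).toReal := by
          rw [measureReal_def, (hR.iterate k).measure_preimage (hm i).nullMeasurableSet]

end prod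

section more

variable {X : Type*} [MeasurableSpace X] {μ : Measure X} [IsProbabilityMeasure μ]

/-- powers of a mixing map are mixing -/
theorem Mix.pi {T : X → X} (hT : MeasurePreserving T μ μ) (h : Mix μ T)
    (n : ℕ) : Mix (Measure.pi fun _ : Fin n => μ) (fun x j => T (x j)) := by
  induction n with
  | zero =>
    intro A B hA hB
    have hs : ∀ C : Set (Fin 0 → X), C = ∅ ∨ C = Set.univ := fun C => by
      rcases C.eq_empty_or_nonempty with h | ⟨x, hx⟩
      · exact Or.inl h
      · right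
        ext y
        have : y = x := by funext i; exact i.elim0
        simp [this, hx]
    rcases hs A with rfl | rfl <;> rcases hs B with rfl | rfl <;> simp
  | succ n ih =>
    let e : (Fin (n + 1) → X) ≃ᵐ X × (Fin n → X) := MeasurableEquiv.piFinSuccAbove (fun _ => X) 0
    have he : MeasurePreserving e (Measure.pi fun _ : Fin (n + 1) => μ)
        (μ.prod (Measure.pi fun _ : Fin n => μ)) :=
      measurePreserving_piFinSuccAbove (fun _ => μ) 0
    have hTn : MeasurePreserving (fun (x : Fin n → X) j => T (x j))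
        (Measure.pi fun _ => μ) (Measure.pi fun _ => μ) :=
      measurePreserving_pi _ _ fun _ => hT
    have h2 : Mix (μ.prod (Measure.pi fun _ : Fin n => μ))
        (Prod.map T (fun (x : Fin n → X) j => T (x j))) := Mix.prod hT hTn h ih
    refine Mix.factor h2 he.symm ?_ ?_
    · rintro ⟨a, f⟩
      funext j
      refine Fin.cases ?_ (fun i => ?_) j
      · simp [e, MeasurableEquiv.piFinSuccAbove, Fin.insertNthEquiv]
      · simp [e, MeasurableEquiv.piFinSuccAbove, Fin.insertNthEquiv]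
    · exact measurable_pi_lambda _ fun j => hT.measurable.comp (measurable_pi_apply j)

/-- mixing maps are ergodic -/
theorem Mix.ergodic {T : X → X} (hT : MeasurePreserving T μ μ) (h : Mix μ T) : Ergodic T μ := by
  refine ⟨hT, ⟨fun s hs hinv => ?_⟩⟩
  have hk : ∀ k, T^[k] ⁻¹' s = s := by
    intro k
    induction k with
    | zero => rfl
    | succ k ih => rw [Function.iterate_succ, Set.preimage_comp, ih, hinv]
  have h1 := h s s hs hs
  simp only [hk, Set.inter_self] at h1
  have h2 : μ.real s = μ.real s * μ.real s := tendsto_nhds_unique tendsto_const_nhds h1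
  have h3 : μ.real s = 0 ∨ μ.real s = 1 := by
    have : μ.real s * (μ.real s - 1) = 0 := by linarith
    rcases mul_eq_zero.mp this with h | h
    · exact Or.inl h
    · exact Or.inr (by linarith)
  rw [eventuallyConst_set']
  rcases h3 with h | h
  · left
    rw [measureReal_def, ENNReal.toReal_eq_zero_iff] at h
    rcases h with h | h
    · exact ae_eq_empty.mpr h
    · exact absurd h (measure_ne_top _ _)
  · right
    rw [ae_eq_univ]
    have h4 : μ.real sᶜ = 0 := by rw [probReal_compl_eq_one_sub hs, h, sub_self]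
    rw [measureReal_def, ENNReal.toReal_eq_zero_iff] at h4
    rcases h4 with h | h
    · exact h
    · exact absurd h (measure_ne_top _ _)

/-- layer cake formula for a minimum -/
lemma layer {Z : Type*} [MeasurableSpace Z] (Λ : Measure Z) [IsProbabilityMeasure Λ] {u v : Z → ℝ}
    (hu : Measurable u) (hv : Measurable v) (hu0 : ∀ z, 0 ≤ u z) (hu1 : ∀ z, u z ≤ 1)
    (hv0 : ∀ z, 0 ≤ v z) : ∫ z, min (u z) (v z) ∂Λ
      = ∫ t in Set.Ioc (0 : ℝ) 1, Λ.real ({z | t < u z} ∩ {z | t < v z}) := by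
  classical
  have key : ∀ a b : ℝ, 0 ≤ a → a ≤ 1 → 0 ≤ b →
      min a b = ∫ t in Set.Ioc (0 : ℝ) 1, (if t < a ∧ t < b then (1 : ℝ) else 0) := by
    intro a b ha ha1 hb
    have e : ∀ t, (if t < a ∧ t < b then (1 : ℝ) else 0)
        = (Set.Iio (min a b)).indicator (fun _ => (1 : ℝ)) t := by
      intro t
      simp only [Set.indicator_apply, Set.mem_Iio, lt_min_iff]
    simp only [e]
    rw [integral_indicator measurableSet_Iio, Measure.restrict_restrict measurableSet_Iio,
      setIntegral_const, smul_eq_mul, mul_one]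
    have hae : volume.real (Set.Iio (min a b) ∩ Set.Ioc 0 1) = volume.real (Set.Ioo 0 (min a b)) := by
      congr 1
      ext t
      simp only [Set.mem_inter_iff, Set.mem_Iio, Set.mem_Ioc, Set.mem_Ioo]
      constructor
      · rintro ⟨h1, h2, _⟩; exact ⟨h2, h1⟩
      · rintro ⟨h1, h2⟩; exact ⟨h2, h1, (h2.trans_le ((min_le_left _ _).trans ha1)).le⟩
    rw [hae, Real.volume_real_Ioo_of_le (le_min ha hb), sub_zero]
  have hset : MeasurableSet {p : Z × ℝ | p.2 < u p.1 ∧ p.2 < v p.1} :=
    (measurableSet_lt measurable_snd (hu.comp measurable_fst)).inter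
      (measurableSet_lt measurable_snd (hv.comp measurable_fst))
  have hF : Measurable fun p : Z × ℝ => if p.2 < u p.1 ∧ p.2 < v p.1 then (1 : ℝ) else 0 :=
    Measurable.ite hset measurable_const measurable_const
  have hI : Integrable (fun p : Z × ℝ => if p.2 < u p.1 ∧ p.2 < v p.1 then (1 : ℝ) else 0)
      (Λ.prod (volume.restrict (Set.Ioc (0 : ℝ) 1))) := by
    apply integrable_of_bdd (C := 1) hF
    intro p
    split_ifs <;> simp
  calc ∫ z, min (u z) (v z) ∂Λ
      = ∫ z, (∫ t in Set.Ioc (0 : ℝ) 1, (if t < u z ∧ t < v z then (1 : ℝ) else 0)) ∂Λ := by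
        apply integral_congr_ae
        filter_upwards with z
        exact key _ _ (hu0 z) (hu1 z) (hv0 z)
    _ = ∫ t in Set.Ioc (0 : ℝ) 1, (∫ z, (if t < u z ∧ t < v z then (1 : ℝ) else 0) ∂Λ) :=
        integral_integral_swap hI
    _ = _ := by
        apply integral_congr_ae
        filter_upwards with t
        have hs : MeasurableSet ({z | t < u z} ∩ {z | t < v z}) :=
          (measurableSet_lt measurable_const hu).inter (measurableSet_lt measurable_const hv)
        have e : ∀ z, (if t < u z ∧ t < v z then (1 : ℝ) else 0)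
            = ({z | t < u z} ∩ {z | t < v z}).indicator (fun _ => (1 : ℝ)) z := by
          intro z
          simp only [Set.indicator_apply, Set.mem_inter_iff, Set.mem_ofPred_eq]
        simp only [e]
        rw [integral_indicator_const _ hs, smul_eq_mul, mul_one]

/-- minima of a function and its translates -/
theorem mix_min {T : X → X} (hT : MeasurePreserving T μ μ) (h : Mix μ T) {g : X → ℝ}
    (hg : Measurable g) (h0 : ∀ x, 0 ≤ g x) (h1 : ∀ x, g x ≤ 1) :
    Tendsto (fun k : ℕ => ∫ x, min (g x) (g (T^[k] x)) ∂μ) atTop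
      (𝓝 (∫ x, ∫ x', min (g x) (g x') ∂μ ∂μ)) := by
  have hk : ∀ k, Measurable fun x => g (T^[k] x) := fun k => hg.comp (hT.measurable.iterate k)
  have e1 : ∀ k, ∫ x, min (g x) (g (T^[k] x)) ∂μ
      = ∫ t in Set.Ioc (0 : ℝ) 1, μ.real ({x | t < g x} ∩ T^[k] ⁻¹' {x | t < g x}) := fun k =>
    layer μ hg (hk k) h0 h1 fun x => h0 _
  have e2 : ∫ x, ∫ x', min (g x) (g x') ∂μ ∂μ
      = ∫ t in Set.Ioc (0 : ℝ) 1, μ.real {x | t < g x} * μ.real {x | t < g x} := by
    have hI : Integrable (fun p : X × X => min (g p.1) (g p.2)) (μ.prod μ) := by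
      apply integrable_of_bdd (C := 1)
        ((hg.comp measurable_fst).min (hg.comp measurable_snd))
      intro p
      simp only [Function.comp_apply]
      rw [abs_of_nonneg (le_min (h0 _) (h0 _))]
      exact (min_le_left _ _).trans (h1 _)
    have hl := layer (μ.prod μ) (u := fun z => g z.1) (v := fun z => g z.2)
      (hg.comp measurable_fst) (hg.comp measurable_snd) (fun z => h0 _)
        (fun z => h1 _) (fun z => h0 _)
    rw [← integral_prod (fun p : X × X => min (g p.1) (g p.2)) hI, hl]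
    apply integral_congr_ae
    filter_upwards with t
    have : ({z : X × X | t < g z.1} ∩ {z | t < g z.2}) = {x | t < g x} ×ˢ {x | t < g x} := by
      ext z
      simp
    show (μ.prod μ).real ({z : X × X | t < g z.1} ∩ {z | t < g z.2}) = _
    rw [this, measureReal_prod_prod]
  simp only [e1]
  rw [e2]
  apply tendsto_integral_of_dominated_convergence (bound := fun _ => (1 : ℝ))
  · intro k
    have hm : Measurable fun t => μ.real ({x | t < g x} ∩ {x | t < g (T^[k] x)}) := by
      have hset : MeasurableSet {p : ℝ × X | p.1 < g p.2 ∧ p.1 < g (T^[k] p.2)} :=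
        (measurableSet_lt measurable_fst (hg.comp measurable_snd)).inter
          (measurableSet_lt measurable_fst ((hk k).comp measurable_snd))
      exact (measurable_measure_prodMk_left (ν := μ) hset).ennreal_toReal
    exact hm.aestronglyMeasurable
  · exact integrable_const _
  · intro k
    filter_upwards with t
    rw [Real.norm_eq_abs, abs_of_nonneg measureReal_nonneg]
    exact measureReal_le_one
  · filter_upwards with t
    have hs : MeasurableSet {x | t < g x} := measurableSet_lt measurable_const hg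
    exact h _ _ hs hs

end more

end Pool.Agent.H52P
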