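import Pool.Agent.H52P.Core

/-! The overlap vanishes for singular joinings; joinings of a mixing system with a mixing
relatively partially rigid extension. -/

set_option linter.style.longLine false
set_option linter.unusedSectionVars false
set_option linter.style.header false

namespace Pool.Agent.H52P

open MeasureTheory Filter Topology
open scoped symmDiff ENNReal

section approx

variable {W F Y : Type*} [MeasurableSpace W] [MeasurableSpace F] [MeasurableSpace Y]

/-- the set of points `((w, f), y)` with `(w, y) ∈ D (c f)` -/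
def fin {r : ℕ} (c : F → Fin r) (D : Fin r → Set (W × Y)) : Set ((W × F) × Y) :=
  {ω | (ω.1.1, ω.2) ∈ D (c ω.1.2)}

/-- sets described by a finite partition of the fibre -/
def alg (W F Y : Type*) [MeasurableSpace W] [MeasurableSpace F] [MeasurableSpace Y] :
    Set (Set ((W × F) × Y)) :=
  {t | ∃ (r : ℕ) (c : F → Fin r) (D : Fin r → Set (W × Y)), Measurable c ∧
    (∀ i, MeasurableSet (D i)) ∧ t = fin c D}

lemma measurableSet_fin {r : ℕ} {c : F → Fin r} {D : Fin r → Set (W × Y)} (hc : Measurable c)
    (hD : ∀ i, MeasurableSet (D i)) : MeasurableSet (fin c D) := by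
  have hz : Measurable fun ω : (W × F) × Y => (ω.1.1, ω.2) :=
    (measurable_fst.comp measurable_fst).prodMk measurable_snd
  have hcf : Measurable fun ω : (W × F) × Y => c ω.1.2 :=
    hc.comp (measurable_snd.comp measurable_fst)
  have : fin c D = ⋃ i, ((fun ω : (W × F) × Y => (ω.1.1, ω.2)) ⁻¹' (D i)
      ∩ (fun ω : (W × F) × Y => c ω.1.2) ⁻¹' {i}) := by
    ext ω
    simp only [fin, Set.mem_iUnion, Set.mem_inter_iff, Set.mem_preimage,
      Set.mem_singleton_iff]
    constructor
    · intro h
      exact ⟨_, h, rfl⟩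
    · rintro ⟨i, h, rfl⟩
      exact h
  rw [this]
  exact MeasurableSet.iUnion fun i => (hz (hD i)).inter (hcf (measurableSet_singleton i))

lemma isSetAlgebra_alg : IsSetAlgebra (alg W F Y) where
  empty_mem := ⟨1, fun _ => 0, fun _ => ∅, measurable_const, fun _ => MeasurableSet.empty, by
    ext ω; simp [fin]⟩
  compl_mem := by
    rintro _ ⟨r, c, D, hc, hD, rfl⟩
    exact ⟨r, c, fun i => (D i)ᶜ, hc, fun i => (hD i).compl, rfl⟩
  union_mem := by
    rintro _ _ ⟨r, c, D, hc, hD, rfl⟩ ⟨r', c', D', hc', hD', rfl⟩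
    refine ⟨r * r', fun f => finProdFinEquiv (c f, c' f),
      fun i => D (finProdFinEquiv.symm i).1 ∪ D' (finProdFinEquiv.symm i).2, ?_, ?_, ?_⟩
    · exact (measurable_of_countable (fun p : Fin r × Fin r' => finProdFinEquiv p)).comp
        (hc.prodMk hc')
    · intro i
      exact (hD _).union (hD' _)
    · ext ω
      simp [fin]

lemma generateFrom_alg : (inferInstance : MeasurableSpace ((W × F) × Y))
    = MeasurableSpace.generateFrom (alg W F Y) := by
  classical
  apply le_antisymm
  · have h1 : @Measurable ((W × F) × Y) W (MeasurableSpace.generateFrom (alg W F Y)) _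
        (fun ω => ω.1.1) := by
      intro A hA
      apply MeasurableSpace.measurableSet_generateFrom
      refine ⟨1, fun _ => 0, fun _ => A ×ˢ Set.univ, measurable_const,
        fun _ => hA.prod MeasurableSet.univ, ?_⟩
      ext ω
      simp [fin]
    have h2 : @Measurable ((W × F) × Y) F (MeasurableSpace.generateFrom (alg W F Y)) _
        (fun ω => ω.1.2) := by
      intro B hB
      apply MeasurableSpace.measurableSet_generateFrom
      refine ⟨2, fun f => if f ∈ B then 1 else 0, fun i => if i = 1 then Set.univ else ∅,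
        Measurable.ite hB measurable_const measurable_const, fun i => ?_, ?_⟩
      · show MeasurableSet (if i = 1 then Set.univ else ∅)
        split_ifs
        · exact MeasurableSet.univ
        · exact MeasurableSet.empty
      · ext ω
        by_cases h : ω.1.2 ∈ B <;> simp [fin, h]
    have h3 : @Measurable ((W × F) × Y) Y (MeasurableSpace.generateFrom (alg W F Y)) _
        (fun ω => ω.2) := by
      intro C hC
      apply MeasurableSpace.measurableSet_generateFrom
      refine ⟨1, fun _ => 0, fun _ => Set.univ ×ˢ C, measurable_const,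
        fun _ => MeasurableSet.univ.prod hC, ?_⟩
      ext ω
      simp [fin]
    have h4 : @Measurable ((W × F) × Y) ((W × F) × Y)
        (MeasurableSpace.generateFrom (alg W F Y)) _ (fun ω => ((ω.1.1, ω.1.2), ω.2)) :=
      (h1.prodMk h2).prodMk h3
    intro s hs
    exact h4 hs
  · apply MeasurableSpace.generateFrom_le
    rintro _ ⟨r, c, D, hc, hD, rfl⟩
    exact measurableSet_fin hc hD

/-- approximation of a separating set -/
lemma exists_approx {P Λ : Measure ((W × F) × Y)} [IsFiniteMeasure P] [IsFiniteMeasure Λ]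
    (h : P ⟂ₘ Λ) {η : ℝ} (hη : 0 < η) : ∃ (r : ℕ) (c : F → Fin r) (D : Fin r → Set (W × Y)),
      Measurable c ∧ (∀ i, MeasurableSet (D i)) ∧ Λ.real (fin c D) < η ∧
        P.real (fin c D)ᶜ < η := by
  obtain ⟨N, hN, hPN, hΛN⟩ := h
  have hdense := Measure.MeasureDense.of_generateFrom_isSetAlgebra_finite (μ := P + Λ)
    (isSetAlgebra_alg (W := W) (F := F) (Y := Y)) generateFrom_alg
  obtain ⟨t, ⟨r, c, D, hc, hD, rfl⟩, ht⟩ := hdense.approx Nᶜ hN.compl (measure_ne_top _ _) η hη
  refine ⟨r, c, D, hc, hD, ?_, ?_⟩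
  · have h1 : Λ (fin c D) ≤ (P + Λ) (Nᶜ ∆ fin c D) := by
      calc Λ (fin c D) ≤ Λ (Nᶜ ∪ (Nᶜ ∆ fin c D)) := by
            apply measure_mono
            intro x hx
            by_cases h : x ∈ N
            · right
              rw [Set.mem_symmDiff]
              right
              exact ⟨hx, fun h2 => h2 h⟩
            · left; exact h
        _ ≤ Λ Nᶜ + Λ (Nᶜ ∆ fin c D) := measure_union_le _ _
        _ ≤ (P + Λ) (Nᶜ ∆ fin c D) := by
            rw [hΛN, zero_add, Measure.add_apply]
            exact le_add_self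
    rw [measureReal_def]
    exact ENNReal.toReal_lt_of_lt_ofReal (lt_of_le_of_lt h1 ht)
  · have h1 : P (fin c D)ᶜ ≤ (P + Λ) (Nᶜ ∆ fin c D) := by
      calc P (fin c D)ᶜ ≤ P (N ∪ (Nᶜ ∆ fin c D)) := by
            apply measure_mono
            intro x hx
            by_cases h : x ∈ N
            · left; exact h
            · right
              rw [Set.mem_symmDiff]
              left
              exact ⟨h, hx⟩
        _ ≤ P N + P (Nᶜ ∆ fin c D) := measure_union_le _ _
        _ ≤ (P + Λ) (Nᶜ ∆ fin c D) := by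
            rw [hPN, zero_add, Measure.add_apply]
            exact le_self_add
    rw [measureReal_def]
    exact ENNReal.toReal_lt_of_lt_ofReal (lt_of_le_of_lt h1 ht)

/-- product measure of a box in which the first and third coordinates are tied -/
lemma prod_box (lam : Measure W) [IsProbabilityMeasure lam] (m : Measure F)
    [IsProbabilityMeasure m] (μ : Measure Y) [IsProbabilityMeasure μ] {D : Set (W × Y)}
    (hD : MeasurableSet D) {B : Set F} (hB : MeasurableSet B) :
    ((lam.prod m).prod μ) {ω | (ω.1.1, ω.2) ∈ D ∧ ω.1.2 ∈ B} = (lam.prod μ) D * m B := by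
  have hz : Measurable fun ω : (W × F) × Y => (ω.1.1, ω.2) :=
    (measurable_fst.comp measurable_fst).prodMk measurable_snd
  have hf : Measurable fun ω : (W × F) × Y => ω.1.2 := measurable_snd.comp measurable_fst
  have hS : MeasurableSet {ω : (W × F) × Y | (ω.1.1, ω.2) ∈ D ∧ ω.1.2 ∈ B} :=
    (hz hD).inter (hf hB)
  have hsec : Measurable fun w => μ (Prod.mk w ⁻¹' D) := measurable_measure_prodMk_left hD
  rw [Measure.prod_apply hS]
  have e : ∀ x : W × F, μ (Prod.mk x ⁻¹' {ω : (W × F) × Y | (ω.1.1, ω.2) ∈ D ∧ ω.1.2 ∈ B})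
      = μ (Prod.mk x.1 ⁻¹' D) * B.indicator (fun _ => 1) x.2 := by
    intro x
    by_cases h : x.2 ∈ B
    · rw [Set.indicator_of_mem h, mul_one]
      congr 1
      ext v
      simp [h]
    · rw [Set.indicator_of_notMem h, mul_zero]
      have : Prod.mk x ⁻¹' {ω : (W × F) × Y | (ω.1.1, ω.2) ∈ D ∧ ω.1.2 ∈ B} = ∅ := by
        ext v
        simp [h]
      rw [this, measure_empty]
  simp only [e]
  rw [lintegral_prod_mul hsec.aemeasurable (measurable_const.indicator hB).aemeasurable,
    lintegral_indicator hB, setLIntegral_const, one_mul, Measure.prod_apply hD]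

/-- the overlap is small when the joining is nearly separated from the product measure -/
lemma overlap_le (lam : Measure W) [IsProbabilityMeasure lam] (m : Measure F)
    [IsProbabilityMeasure m] (μ : Measure Y) [IsProbabilityMeasure μ]
    (P : Measure ((W × F) × Y)) [IsProbabilityMeasure P]
    (hlawX : P.map Prod.fst = lam.prod m)
    {r : ℕ} {c : F → Fin r} (hc : Measurable c) {D : Fin r → Set (W × Y)}
    (hD : ∀ i, MeasurableSet (D i))
    {Φ : Fin r → W × Y → ℝ} (hΦm : ∀ i, Measurable (Φ i)) (hΦ0 : ∀ i z, 0 ≤ Φ i z)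
    (hΦ1 : ∀ i z, Φ i z ≤ 1)
    (hΦ : ∀ i, ∀ s : W × Y → ℝ, Measurable s →
        ∫ ω, s (ω.1.1, ω.2) * {ω : (W × F) × Y | c ω.1.2 = i}.indicator (fun _ => (1 : ℝ)) ω ∂P
          = ∫ z, s z * Φ i z ∂(lam.prod μ)) :
    ∫ x, overlap μ Φ x ∂lam
      ≤ ((lam.prod m).prod μ).real (fin c D) + P.real (fin c D)ᶜ := by
  classical
  have hz : Measurable fun ω : (W × F) × Y => (ω.1.1, ω.2) :=
    (measurable_fst.comp measurable_fst).prodMk measurable_snd
  have hcf : Measurable fun ω : (W × F) × Y => c ω.1.2 :=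
    hc.comp (measurable_snd.comp measurable_fst)
  have hE : ∀ i, MeasurableSet {ω : (W × F) × Y | c ω.1.2 = i} := fun i =>
    hcf (measurableSet_singleton i)
  have hB : ∀ i, MeasurableSet (c ⁻¹' {i}) := fun i => hc (measurableSet_singleton i)
  have hΦb : ∀ i z, |Φ i z| ≤ 1 := fun i z => by rw [abs_of_nonneg (hΦ0 i z)]; exact hΦ1 i z
  have hΦI : ∀ i, Integrable (Φ i) (lam.prod μ) := fun i => bdd_int (hΦm i) (hΦb i)
  have hmean : ∀ i (x : W), ∫ v, Φ i (x, v) ∂μ ≤ 1 := by
    intro i x
    calc ∫ v, Φ i (x, v) ∂μ ≤ ∫ _, (1 : ℝ) ∂μ := by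
          apply integral_mono
          · exact bdd_int ((hΦm i).comp measurable_prodMk_left) fun v => hΦb i _
          · exact integrable_const _
          · intro v; exact hΦ1 i _
      _ = 1 := by simp
  have hmeanm : ∀ i, Measurable fun x => ∫ v, Φ i (x, v) ∂μ := fun i =>
    ((hΦm i).stronglyMeasurable.integral_prod_right').measurable
  have hmean0 : ∀ i (x : W), 0 ≤ ∫ v, Φ i (x, v) ∂μ := fun i x =>
    integral_nonneg fun v => hΦ0 i _
  -- fibre means
  have hfib : ∀ i, ∀ᵐ x ∂lam, ∫ v, Φ i (x, v) ∂μ = m.real (c ⁻¹' {i}) := by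
    intro i
    have h1 : (fun x => ∫ v, Φ i (x, v) ∂μ) =ᵐ[lam] fun _ => m.real (c ⁻¹' {i}) := by
      apply ae_eq_of_forall_setIntegral_eq_of_sigmaFinite
      · intro s _ _
        exact (hΦI i).integral_prod_left.integrableOn
      · intro s _ _
        exact integrableOn_const
      · intro A hA _
        have h2 := dens_set (P := P) (Λ := lam.prod μ) hz (hE i) (hΦ i)
          (hA.prod (MeasurableSet.univ (α := Y)))
        rw [setIntegral_prod _ (hΦI i).integrableOn] at h2
        simp only [setIntegral_univ] at h2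
        rw [h2, setIntegral_const, smul_eq_mul]
        have h3 : (fun ω : (W × F) × Y => (ω.1.1, ω.2)) ⁻¹' (A ×ˢ Set.univ)
            ∩ {ω | c ω.1.2 = i} = Prod.fst ⁻¹' (A ×ˢ (c ⁻¹' {i})) := by
          ext ω
          simp
        rw [h3, ← map_measureReal_apply measurable_fst (hA.prod (hB i)), hlawX,
          measureReal_prod_prod]
    exact h1
  -- pointwise bound of the overlap
  let ind : Fin r → W × Y → ℝ := fun i => (D i).indicator fun _ => (1 : ℝ)
  let ind' : Fin r → W × Y → ℝ := fun i => (D i)ᶜ.indicator fun _ => (1 : ℝ)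
  have hindm : ∀ i, Measurable (ind i) := fun i => measurable_const.indicator (hD i)
  have hindm' : ∀ i, Measurable (ind' i) := fun i => measurable_const.indicator (hD i).compl
  have hind01 : ∀ i z, 0 ≤ ind i z ∧ ind i z ≤ 1 := by
    intro i z
    by_cases h : z ∈ D i <;> simp [ind, h]
  have hind01' : ∀ i z, 0 ≤ ind' i z ∧ ind' i z ≤ 1 := by
    intro i z
    by_cases h : z ∈ D i <;> simp [ind', h]
  have hover : ∀ x, overlap μ Φ x ≤ ∑ i, (∫ v, ind i (x, v) * (∫ v', Φ i (x, v') ∂μ) ∂μ
      + ∫ v, ind' i (x, v) * Φ i (x, v) ∂μ) := by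
    intro x
    unfold overlap
    apply Finset.sum_le_sum
    intro i _
    have m1 : Measurable fun v => Φ i (x, v) := (hΦm i).comp measurable_prodMk_left
    have k1 : Integrable (fun v => ind i (x, v) * (∫ v', Φ i (x, v') ∂μ)) μ :=
      bdd_int (C := 1) (((hindm i).comp measurable_prodMk_left).mul_const _) fun v => by
        have a := hind01 i (x, v)
        have b := hmean i x
        have c := hmean0 i x
        rw [abs_of_nonneg (mul_nonneg a.1 c)]
        nlinarith
    have k2 : Integrable (fun v => ind' i (x, v) * Φ i (x, v)) μ :=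
      bdd_int (C := 1) (((hindm' i).comp measurable_prodMk_left).mul m1) fun v => by
        have a := hind01' i (x, v)
        have b := hΦ0 i (x, v)
        have c := hΦ1 i (x, v)
        rw [abs_of_nonneg (mul_nonneg a.1 b)]
        nlinarith
    rw [← integral_add k1 k2]
    have hPI : Integrable (fun p : Y × Y => min (Φ i (x, p.1)) (Φ i (x, p.2))) (μ.prod μ) := by
      apply bdd_int (C := 1) ((m1.comp measurable_fst).min (m1.comp measurable_snd))
      intro p
      simp only [Function.comp_apply]
      rw [abs_of_nonneg (le_min (hΦ0 _ _) (hΦ0 _ _))]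
      exact (min_le_left _ _).trans (hΦ1 _ _)
    apply integral_mono hPI.integral_prod_left (k1.add k2)
    intro v
    simp only [Pi.add_apply]
    have k3 : Integrable (fun v' => min (Φ i (x, v)) (Φ i (x, v'))) μ := by
      apply bdd_int (C := 1) (measurable_const.min m1)
      intro v'
      rw [abs_of_nonneg (le_min (hΦ0 _ _) (hΦ0 _ _))]
      exact (min_le_left _ _).trans (hΦ1 _ _)
    by_cases h : (x, v) ∈ D i
    · have e1 : ind i (x, v) = 1 := by simp [ind, h]
      have e2 : ind' i (x, v) = 0 := by simp [ind', h]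
      rw [e1, e2, one_mul, zero_mul, add_zero]
      apply integral_mono k3 (bdd_int m1 fun v' => hΦb i _)
      intro v'
      exact min_le_right _ _
    · have e1 : ind i (x, v) = 0 := by simp [ind, h]
      have e2 : ind' i (x, v) = 1 := by simp [ind', h]
      rw [e1, e2, one_mul, zero_mul, zero_add]
      calc ∫ v', min (Φ i (x, v)) (Φ i (x, v')) ∂μ ≤ ∫ _, Φ i (x, v) ∂μ := by
            apply integral_mono k3 (integrable_const _)
            intro v'
            exact min_le_left _ _
        _ = Φ i (x, v) := by simp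
  -- integrate
  have hI1 : ∀ i, Integrable (fun z : W × Y => ind i z * (∫ v', Φ i (z.1, v') ∂μ))
      (lam.prod μ) := fun i =>
    bdd_int (C := 1) ((hindm i).mul ((hmeanm i).comp measurable_fst)) fun z => by
      have a := hind01 i z
      have b := hmean i z.1
      have c := hmean0 i z.1
      rw [abs_of_nonneg (mul_nonneg a.1 c)]
      nlinarith
  have hI2 : ∀ i, Integrable (fun z : W × Y => ind' i z * Φ i z) (lam.prod μ) := fun i =>
    bdd_int (C := 1) ((hindm' i).mul (hΦm i)) fun z => by
      have a := hind01' i z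
      have b := hΦ0 i z
      have c := hΦ1 i z
      rw [abs_of_nonneg (mul_nonneg a.1 b)]
      nlinarith
  have hI3 : ∀ i, Integrable (fun x => ∫ v, ind i (x, v) * (∫ v', Φ i (x, v') ∂μ) ∂μ) lam :=
    fun i => (hI1 i).integral_prod_left
  have hI4 : ∀ i, Integrable (fun x => ∫ v, ind' i (x, v) * Φ i (x, v) ∂μ) lam :=
    fun i => (hI2 i).integral_prod_left
  have hI5 : ∀ i, Integrable (fun x => ∫ v, ind i (x, v) * (∫ v', Φ i (x, v') ∂μ) ∂μ
      + ∫ v, ind' i (x, v) * Φ i (x, v) ∂μ) lam := fun i => (hI3 i).add (hI4 i)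
  have hrhs : ∫ x, (∑ i, (∫ v, ind i (x, v) * (∫ v', Φ i (x, v') ∂μ) ∂μ
      + ∫ v, ind' i (x, v) * Φ i (x, v) ∂μ)) ∂lam
      = ∑ i, ((lam.prod μ).real (D i) * m.real (c ⁻¹' {i})
        + P.real ((fun ω => (ω.1.1, ω.2)) ⁻¹' (D i)ᶜ ∩ {ω | c ω.1.2 = i})) := by
    rw [integral_finsetSum _ fun i _ => hI5 i]
    apply Finset.sum_congr rfl
    intro i _
    rw [integral_add (hI3 i) (hI4 i)]
    congr 1
    · rw [← integral_prod _ (hI1 i)]
      have h1 : ∀ᵐ z ∂(lam.prod μ), (∫ v', Φ i (z.1, v') ∂μ) = m.real (c ⁻¹' {i}) := by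
        have := hfib i
        exact Measure.quasiMeasurePreserving_fst.ae this
      rw [integral_congr_ae (g := fun z => ind i z * m.real (c ⁻¹' {i})) (by
        filter_upwards [h1] with z hz2
        rw [hz2]), integral_mul_const]
      congr 1
      simp only [ind]
      rw [integral_indicator_const _ (hD i), smul_eq_mul, mul_one]
    · rw [← integral_prod _ (hI2 i), ← dens_set (P := P) (Λ := lam.prod μ) hz (hE i) (hΦ i)
        (hD i).compl, ← integral_indicator (hD i).compl]
      apply integral_congr_ae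
      filter_upwards with z
      by_cases h : z ∈ D i <;> simp [ind', h]
  have hOI : Integrable (overlap μ Φ) lam := by
    apply bdd_int (C := r) (measurable_overlap μ hΦm)
    intro x
    unfold overlap
    refine (Finset.abs_sum_le_sum_abs _ _).trans ?_
    calc _ ≤ ∑ i : Fin r, (1 : ℝ) := by
          apply Finset.sum_le_sum
          intro i _
          have m1 : Measurable fun v => Φ i (x, v) := (hΦm i).comp measurable_prodMk_left
          have hPI : Integrable (fun p : Y × Y => min (Φ i (x, p.1)) (Φ i (x, p.2)))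
              (μ.prod μ) := by
            apply bdd_int (C := 1) ((m1.comp measurable_fst).min (m1.comp measurable_snd))
            intro p
            simp only [Function.comp_apply]
            rw [abs_of_nonneg (le_min (hΦ0 _ _) (hΦ0 _ _))]
            exact (min_le_left _ _).trans (hΦ1 _ _)
          rw [← integral_prod (fun p : Y × Y => min (Φ i (x, p.1)) (Φ i (x, p.2))) hPI,
            abs_of_nonneg (integral_nonneg fun p => le_min (hΦ0 _ _) (hΦ0 _ _))]
          calc _ ≤ ∫ _, (1 : ℝ) ∂(μ.prod μ) := by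
                apply integral_mono hPI (integrable_const _)
                intro p
                exact (min_le_left _ _).trans (hΦ1 _ _)
            _ = 1 := by simp
      _ = r := by simp
  have hRI : Integrable (fun x => ∑ i, (∫ v, ind i (x, v) * (∫ v', Φ i (x, v') ∂μ) ∂μ
      + ∫ v, ind' i (x, v) * Φ i (x, v) ∂μ)) lam :=
    integrable_finsetSum _ fun i _ => hI5 i
  refine (integral_mono hOI hRI hover).trans ?_
  rw [hrhs, Finset.sum_add_distrib]
  apply add_le_add
  · -- the product measure
    have e1 : fin c D = ⋃ i, {ω : (W × F) × Y | (ω.1.1, ω.2) ∈ D i ∧ ω.1.2 ∈ c ⁻¹' {i}} := by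
      ext ω
      simp [fin]
    have hS : ∀ i, MeasurableSet {ω : (W × F) × Y | (ω.1.1, ω.2) ∈ D i ∧ ω.1.2 ∈ c ⁻¹' {i}} :=
      fun i => (hz (hD i)).inter ((measurable_snd.comp measurable_fst) (hB i))
    have hdisj : Pairwise (Function.onFun Disjoint
        fun i => {ω : (W × F) × Y | (ω.1.1, ω.2) ∈ D i ∧ ω.1.2 ∈ c ⁻¹' {i}}) := by
      intro i j hij
      rw [Function.onFun, Set.disjoint_left]
      rintro ω ⟨_, h1⟩ ⟨_, h2⟩
      simp only [Set.mem_preimage, Set.mem_singleton_iff] at h1 h2
      exact hij (h1.symm.trans h2)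
    rw [e1, measureReal_def, measure_iUnion hdisj hS, tsum_fintype, ENNReal.toReal_sum]
    · apply le_of_eq
      apply Finset.sum_congr rfl
      intro i _
      rw [prod_box lam m μ (hD i) (hB i), ENNReal.toReal_mul]
      rfl
    · intro i _
      exact measure_ne_top _ _
  · have e1 : (fin c D)ᶜ = ⋃ i, ((fun ω : (W × F) × Y => (ω.1.1, ω.2)) ⁻¹' (D i)ᶜ
        ∩ {ω | c ω.1.2 = i}) := by
      ext ω
      simp [fin]
    have hS : ∀ i, MeasurableSet ((fun ω : (W × F) × Y => (ω.1.1, ω.2)) ⁻¹' (D i)ᶜ
        ∩ {ω | c ω.1.2 = i}) := fun i => (hz (hD i).compl).inter (hE i)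
    have hdisj : Pairwise (Function.onFun Disjoint
        fun i => ((fun ω : (W × F) × Y => (ω.1.1, ω.2)) ⁻¹' (D i)ᶜ ∩ {ω | c ω.1.2 = i})) := by
      intro i j hij
      rw [Function.onFun, Set.disjoint_left]
      rintro ω ⟨_, h1⟩ ⟨_, h2⟩
      simp only [Set.mem_ofPred_eq] at h1 h2
      exact hij (h1.symm.trans h2)
    rw [e1, measureReal_def, measure_iUnion hdisj hS, tsum_fintype, ENNReal.toReal_sum]
    · exact le_rfl
    · intro i _
      exact measure_ne_top _ _

end approx

section main

open Pool.Agent.H52J (skew measurable_skew measurePreserving_skew)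
open Pool.Agent.H52M (iter_prod)

variable {W F Y : Type*} [MeasurableSpace W] [MeasurableSpace F] [MeasurableSpace Y]

/-- no joining is singular -/
lemma not_singular (lam : Measure W) [IsProbabilityMeasure lam] (m : Measure F)
    [IsProbabilityMeasure m] (μ : Measure Y) [IsProbabilityMeasure μ]
    [MeasurableSpace.CountablyGenerated Y]
    (T₀ : W ≃ᵐ W) (hT₀ : MeasurePreserving T₀ lam lam)
    {φ : W → F → F} (hφ : Measurable (Function.uncurry φ))
    (hφm : ∀ w, MeasurePreserving (φ w) m m)
    (T : W × F ≃ᵐ W × F) (hT : (T : W × F → W × F) = skew T₀ φ)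
    (R : Y ≃ᵐ Y) (hR : MeasurePreserving R μ μ) (hmixR : Mix μ R)
    {a : ℝ} (ha : 0 < a)
    (hrec : ∀ (r : ℕ) (c : F → Fin r), Measurable c →
      ∀ᵐ w ∂lam, ∃ᶠ k in atTop, a ≤ 1 - dc m T₀ φ c w 0 k)
    (P : Measure ((W × F) × Y)) [IsProbabilityMeasure P]
    (hP : MeasurePreserving (T.prodCongr R) P P)
    (hlawX : P.map Prod.fst = lam.prod m)
    (hlaw : P.map (fun ω => (ω.1.1, ω.2)) = lam.prod μ) :
    ¬ P ⟂ₘ (lam.prod m).prod μ := by
  classical
  intro hsing
  have hm : Measurable (skew T₀ φ) := measurable_skew hT₀ hφ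
  obtain ⟨b, hb0, hb1, hba⟩ : ∃ b : ℝ, 0 < b ∧ b < 1 ∧ b < a := by
    refine ⟨min a 1 / 2, by positivity, ?_, ?_⟩
    · have := min_le_right a 1
      linarith
    · have := min_le_left a 1
      linarith
  obtain ⟨q, hq⟩ : ∃ q : ℕ, 2 < q * b ^ 2 := by
    obtain ⟨q, hq⟩ := exists_nat_gt (2 / b ^ 2)
    exact ⟨q, by rwa [div_lt_iff₀ (by positivity)] at hq⟩
  obtain ⟨r, c, D, hc, hD, hΛ, hPc⟩ := exists_approx hsing (η := b ^ 2 / 8) (by positivity)
  have hz : Measurable fun ω : (W × F) × Y => (ω.1.1, ω.2) :=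
    (measurable_fst.comp measurable_fst).prodMk measurable_snd
  have hcf : Measurable fun ω : (W × F) × Y => c ω.1.2 :=
    hc.comp (measurable_snd.comp measurable_fst)
  have hE : ∀ i, MeasurableSet {ω : (W × F) × Y | c ω.1.2 = i} := fun i =>
    hcf (measurableSet_singleton i)
  choose Φ hΦm hΦ0 hΦ1 hΦ using fun i => exists_dens P (lam.prod μ) hz hlaw (hE i)
  have hτk : ∀ k (ω : (W × F) × Y), (T.prodCongr R)^[k] ω = (T^[k] ω.1, R^[k] ω.2) := by
    intro k ω
    exact iter_prod T R k ω
  have hge : ∀ᵐ x ∂lam, 1 - (1 - b ^ 2 / 2) ≤ overlap μ Φ x := by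
    refine overlap_ge P lam μ hP T₀ hT₀ R hR hmixR (w := fun ω => ω.1.1)
      (measurable_fst.comp measurable_fst) (fun ω => ?_) (y := fun ω => ω.2) measurable_snd
      (fun ω => rfl) hlaw (κ := fun ω => c ω.1.2) hcf (d := dc m T₀ φ c) (measurable_dc hm hc)
      (dc_nonneg c) (dc_le c) ?_ ?_ hΦm hΦ0 hΦ1 hΦ
    · show (T ω.1).1 = T₀ ω.1.1
      rw [hT]
      rfl
    · intro k A hA
      have hAs : MeasurableSet ((Prod.fst ⁻¹' A) ∩ same T₀ φ c 0 k) :=
        (measurable_fst hA).inter (measurableSet_same hm hc 0 k)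
      rw [integral_dc hm hc hA, ← hlawX, map_measureReal_apply measurable_fst hAs]
      congr 1
      ext ω
      simp only [Set.mem_preimage, Set.mem_inter_iff, same, Set.mem_ofPred_eq,
        Function.iterate_zero, id, hτk, hT]
      constructor
      · rintro ⟨h1, h2⟩; exact ⟨h1, h2.symm⟩
      · rintro ⟨h1, h2⟩; exact ⟨h1, h2.symm⟩
    · intro A hA hpos k₀
      refine joint_rec lam hT₀ (measurable_dc hm hc) (dc_symm c) (dc_diag c)
        (dc_shift hm hφm hc) (ε := 1 - b) (by linarith) (q := q) ?_ ?_ hA hpos k₀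
      · intro x n₀ Z hZ h
        exact dc_quasi hm hc hb0 hq x n₀ Z hZ h
      · filter_upwards [hrec r c hc] with x hx
        exact hx.mono fun k hk => by linarith
  have hle := overlap_le lam m μ P hlawX hc hD hΦm hΦ0 hΦ1 hΦ
  have hOI : Integrable (overlap μ Φ) lam := by
    by_contra hnot
    rw [integral_undef hnot] at hle
    -- the overlap is bounded, hence integrable
    apply hnot
    apply bdd_int (C := r) (measurable_overlap μ hΦm)
    intro x
    unfold overlap
    refine (Finset.abs_sum_le_sum_abs _ _).trans ?_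
    calc _ ≤ ∑ i : Fin r, (1 : ℝ) := by
          apply Finset.sum_le_sum
          intro i _
          have m1 : Measurable fun v => Φ i (x, v) := (hΦm i).comp measurable_prodMk_left
          have hPI : Integrable (fun p : Y × Y => min (Φ i (x, p.1)) (Φ i (x, p.2)))
              (μ.prod μ) := by
            apply bdd_int (C := 1) ((m1.comp measurable_fst).min (m1.comp measurable_snd))
            intro p
            simp only [Function.comp_apply]
            rw [abs_of_nonneg (le_min (hΦ0 _ _) (hΦ0 _ _))]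
            exact (min_le_left _ _).trans (hΦ1 _ _)
          rw [← integral_prod (fun p : Y × Y => min (Φ i (x, p.1)) (Φ i (x, p.2))) hPI,
            abs_of_nonneg (integral_nonneg fun p => le_min (hΦ0 _ _) (hΦ0 _ _))]
          calc _ ≤ ∫ _, (1 : ℝ) ∂(μ.prod μ) := by
                apply integral_mono hPI (integrable_const _)
                intro p
                exact (min_le_left _ _).trans (hΦ1 _ _)
            _ = 1 := by simp
      _ = r := by simp
  have hge2 : b ^ 2 / 2 ≤ ∫ x, overlap μ Φ x ∂lam := by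
    calc b ^ 2 / 2 = ∫ _, b ^ 2 / 2 ∂lam := by simp
      _ ≤ _ := by
        apply integral_mono_ae (integrable_const _) hOI
        filter_upwards [hge] with x hx
        linarith
  have hb2 : 0 < b ^ 2 := by positivity
  linarith

lemma singular_margin {Ω Z : Type*} [MeasurableSpace Ω] [MeasurableSpace Z]
    {P Ps Λ : Measure Ω} [IsFiniteMeasure Λ] {c : ℝ≥0∞} (hcne : c ≠ ⊤)
    (hsum : Ps + c • Λ = P) {p : Ω → Z} (hp : Measurable p) (hPp : P.map p = Λ.map p) :
    Ps.map p = (1 - c) • Λ.map p := by
  ext s hs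
  have h1 : P.map p s = Ps.map p s + c * Λ.map p s := by
    rw [Measure.map_apply hp hs, Measure.map_apply hp hs, Measure.map_apply hp hs]
    conv_lhs => rw [← hsum]
    rfl
  rw [hPp] at h1
  have hfin : Λ.map p s ≠ ⊤ := by
    rw [Measure.map_apply hp hs]
    exact measure_ne_top _ _
  have hcf : c * Λ.map p s ≠ ⊤ := ENNReal.mul_ne_top hcne hfin
  rw [Measure.smul_apply, smul_eq_mul, ENNReal.sub_mul (fun _ _ => hfin), one_mul]
  exact (ENNReal.sub_eq_of_eq_add hcf h1).symm

/-- A mixing relatively partially rigid extension is relatively disjoint from mixing systems. -/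
theorem joint_eq (lam : Measure W) [IsProbabilityMeasure lam] (m : Measure F)
    [IsProbabilityMeasure m] (μ : Measure Y) [IsProbabilityMeasure μ]
    [MeasurableSpace.CountablyGenerated Y]
    (T₀ : W ≃ᵐ W) (hT₀ : MeasurePreserving T₀ lam lam)
    {φ : W → F → F} (hφ : Measurable (Function.uncurry φ))
    (hφm : ∀ w, MeasurePreserving (φ w) m m)
    (T : W × F ≃ᵐ W × F) (hT : (T : W × F → W × F) = skew T₀ φ) (hmixT : Mix (lam.prod m) T)
    (R : Y ≃ᵐ Y) (hR : MeasurePreserving R μ μ) (hmixR : Mix μ R)
    {a : ℝ} (ha : 0 < a)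
    (hrec : ∀ (r : ℕ) (c : F → Fin r), Measurable c →
      ∀ᵐ w ∂lam, ∃ᶠ k in atTop, a ≤ 1 - dc m T₀ φ c w 0 k)
    (P : Measure ((W × F) × Y)) [IsProbabilityMeasure P]
    (hP : MeasurePreserving (T.prodCongr R) P P)
    (hlawX : P.map Prod.fst = lam.prod m)
    (hlaw : P.map (fun ω => (ω.1.1, ω.2)) = lam.prod μ) :
    P = (lam.prod m).prod μ := by
  classical
  have hTmp : MeasurePreserving T (lam.prod m) (lam.prod m) := by
    rw [hT]; exact measurePreserving_skew hT₀ hφ hφm
  have hz : Measurable fun ω : (W × F) × Y => (ω.1.1, ω.2) :=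
    (measurable_fst.comp measurable_fst).prodMk measurable_snd
  obtain ⟨Λ, hΛdef⟩ : ∃ Λ : Measure ((W × F) × Y), Λ = (lam.prod m).prod μ := ⟨_, rfl⟩
  have hΛp : IsProbabilityMeasure Λ := by rw [hΛdef]; infer_instance
  have hV : MeasurePreserving (T.prodCongr R) Λ Λ := by
    rw [hΛdef]; exact hTmp.prod hR
  have herg : Ergodic (T.prodCongr R) Λ := by
    rw [hΛdef] at hV ⊢
    exact Mix.ergodic hV (Mix.prod hTmp hR hmixT hmixR)
  have hΛX : Λ.map Prod.fst = lam.prod m := by
    rw [hΛdef, Measure.map_fst_prod, measure_univ, one_smul]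
  have hΛY : Λ.map (fun ω => (ω.1.1, ω.2)) = lam.prod μ := by
    have e : (fun ω : (W × F) × Y => (ω.1.1, ω.2)) = Prod.map Prod.fst id := rfl
    rw [hΛdef, e, ← Measure.map_prod_map _ _ measurable_fst measurable_id, Measure.map_id,
      Measure.map_fst_prod, measure_univ, one_smul]
  -- decomposition
  obtain ⟨c, hc⟩ := herg.eq_smul_of_absolutelyContinuous (hP.withDensity_rnDeriv hV)
    (withDensity_absolutelyContinuous _ _)
  have hsum : P.singularPart Λ + c • Λ = P := by
    rw [← hc]
    exact Measure.singularPart_add_rnDeriv P Λ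
  have hPs : MeasurePreserving (T.prodCongr R) (P.singularPart Λ) (P.singularPart Λ) :=
    hP.singularPart hV
  have hc1 : c ≤ 1 := by
    have := congrArg (fun ρ : Measure ((W × F) × Y) => ρ Set.univ) hsum
    simp only [Measure.add_apply, Measure.smul_apply, measure_univ, smul_eq_mul, mul_one] at this
    rw [← this]
    exact le_add_self
  have hcne : c ≠ ⊤ := (hc1.trans_lt ENNReal.one_lt_top).ne
  have hs : P.singularPart Λ Set.univ = 1 - c := by
    have := congrArg (fun ρ : Measure ((W × F) × Y) => ρ Set.univ) hsum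
    simp only [Measure.add_apply, Measure.smul_apply, measure_univ, smul_eq_mul, mul_one] at this
    rw [← this, ENNReal.add_sub_cancel_right hcne]
  by_cases hzero : P.singularPart Λ Set.univ = 0
  · -- no singular part
    have h0 : P.singularPart Λ = 0 := Measure.measure_univ_eq_zero.mp hzero
    rw [hzero] at hs
    have hc2 : c = 1 := le_antisymm hc1 (tsub_eq_zero_iff_le.mp hs.symm)
    rw [h0, hc2, one_smul, zero_add] at hsum
    rw [← hsum, hΛdef]
  · exfalso
    have hpos : (1 - c) ≠ 0 := by rw [← hs]; exact hzero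
    have hne : (1 - c) ≠ ⊤ := (tsub_le_self.trans_lt ENNReal.one_lt_top).ne
    let P' : Measure ((W × F) × Y) := (1 - c)⁻¹ • P.singularPart Λ
    have hP'p : IsProbabilityMeasure P' := by
      refine ⟨?_⟩
      show (1 - c)⁻¹ * P.singularPart Λ Set.univ = 1
      rw [hs, ENNReal.inv_mul_cancel hpos hne]
    have hP' : MeasurePreserving (T.prodCongr R) P' P' := by
      refine ⟨hPs.measurable, ?_⟩
      show ((1 - c)⁻¹ • P.singularPart Λ).map _ = (1 - c)⁻¹ • P.singularPart Λ
      rw [Measure.map_smul, hPs.map_eq]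
    have hsing : P' ⟂ₘ Λ := (Measure.mutuallySingular_singularPart P Λ).smul _
    rw [hΛdef] at hsing
    refine not_singular lam m μ T₀ hT₀ hφ hφm T hT R hR hmixR ha hrec P' hP' ?_ ?_ hsing
    · show ((1 - c)⁻¹ • P.singularPart Λ).map Prod.fst = lam.prod m
      rw [Measure.map_smul, singular_margin hcne hsum measurable_fst (by rw [hlawX, hΛX]), smul_smul,
        ENNReal.inv_mul_cancel hpos hne, one_smul, hΛX]
    · show ((1 - c)⁻¹ • P.singularPart Λ).map (fun ω => (ω.1.1, ω.2)) = lam.prod μ
      rw [Measure.map_smul, singular_margin hcne hsum hz (by rw [hlaw, hΛY]), smul_smul,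
        ENNReal.inv_mul_cancel hpos hne, one_smul, hΛY]

end main

end Pool.Agent.H52P
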