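import Pool.Agent.H52P.Sing
import Pool.Agent.H52M.Step

/-! One coordinate at a time, for mixing relatively partially rigid extensions. -/

set_option linter.style.longLine false
set_option linter.unusedSectionVars false
set_option linter.style.header false

namespace Pool.Agent.H52P

open MeasureTheory Filter Topology
open Pool.Agent.H52J (skew measurable_skew measurePreserving_skew)
open Pool.Agent.H52M (mixA mixB mixR measurable_mixA measurable_mixB mixB_comm law_pair
  measurable_upd)

variable {W F : Type*} [MeasurableSpace W] [MeasurableSpace F]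

section

variable {lam : Measure W} [IsProbabilityMeasure lam] {m : Measure F} [IsProbabilityMeasure m]
  [StandardBorelSpace W] [StandardBorelSpace F]

/-- one more coordinate -/
lemma law_succ {n K : ℕ} (T₀ : W ≃ᵐ W) (hT₀ : MeasurePreserving T₀ lam lam)
    {φ : W → F → F} (hφ : Measurable (Function.uncurry φ))
    (hφm : ∀ w, MeasurePreserving (φ w) m m)
    (T : W × F ≃ᵐ W × F) (hT : (T : W × F → W × F) = skew T₀ φ)
    (hmix : Mix (lam.prod m) T) {a : ℝ} (ha : 0 < a)
    (hrec : ∀ (r : ℕ) (c : F → Fin r), Measurable c →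
      ∀ᵐ w ∂lam, ∃ᶠ k in atTop, a ≤ 1 - dc m T₀ φ c w 0 k)
    {ν : Measure (Fin n → W × F)} [IsProbabilityMeasure ν]
    (hν : MeasurePreserving (fun x i => T (x i)) ν ν)
    (hmarg : ∀ j, ν.map (fun x => x j) = lam.prod m) (f₀ : F) (z₀ : W × F)
    (hF : ν.map (mixA f₀ K) = (Measure.pi fun _ => lam.prod m).map (mixA f₀ K))
    {k₁ : Fin n} (hk₁ : k₁.1 = K) :
    ν.map (mixA f₀ (K + 1)) = (Measure.pi fun _ => lam.prod m).map (mixA f₀ (K + 1)) := by
  classical
  have hm : Measurable (skew T₀ φ) := measurable_skew hT₀ hφ
  have hTmp : MeasurePreserving T (lam.prod m) (lam.prod m) := by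
    rw [hT]; exact measurePreserving_skew hT₀ hφ hφm
  have hTfst : ∀ x, (T x).1 = T₀ x.1 := by
    intro x
    rw [hT]
    rfl
  let Pi : Measure (Fin n → W × F) := Measure.pi fun _ => lam.prod m
  let g : (Fin n → W × F) → (Fin n → W × F) := mixB f₀ z₀ K
  have hg : Measurable g := measurable_mixB f₀ z₀ K
  let μY : Measure (Fin n → W × F) := Pi.map g
  have hμY : IsProbabilityMeasure μY := Measure.isProbabilityMeasure_map hg.aemeasurable
  have hTn : MeasurePreserving (fun (x : Fin n → W × F) j => T (x j)) Pi Pi :=
    measurePreserving_pi _ _ fun _ => hTmp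
  have hgp : MeasurePreserving g Pi μY := ⟨hg, rfl⟩
  let R : (Fin n → W × F) ≃ᵐ (Fin n → W × F) := mixR T T₀ K
  have hgR : ∀ x, g (fun i => T (x i)) = R (g x) := fun x => mixB_comm hTfst f₀ z₀ K x
  have hR : MeasurePreserving R μY μY := by
    refine ⟨R.measurable, ?_⟩
    have e : R ∘ g = g ∘ fun (x : Fin n → W × F) j => T (x j) := by
      funext x
      exact (hgR x).symm
    show (Pi.map g).map R = Pi.map g
    rw [Measure.map_map R.measurable hg, e, ← Measure.map_map hg hTn.measurable, hTn.map_eq]
  have hmixY : Mix μY R := Mix.factor (Mix.pi hTmp hmix n) hgp hgR R.measurable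
  -- independence in the product measure
  have hgK : ∀ x a, g (Function.update x k₁ a) = g x := by
    intro x a
    funext i
    simp only [g, mixB]
    by_cases hi : i = k₁
    · subst hi
      rw [if_neg (by omega), if_pos hk₁, if_neg (by omega), if_pos hk₁]
    · rw [Function.update_of_ne hi]
  have hpairPi : Pi.map (fun x => (x k₁, g x)) = (lam.prod m).prod μY := law_pair k₁ hg hgK
  -- the law of base point and mixed system
  let w : (Fin n → W × F) → W := fun ω => (ω k₁).1
  have hwm : Measurable w := measurable_fst.comp (measurable_pi_apply k₁)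
  have hwg : Measurable fun ω => (w ω, g ω) := hwm.prodMk hg
  have hcompA : (fun ω => (w ω, g ω)) ∘ (mixA f₀ K) = fun ω : Fin n → W × F => (w ω, g ω) := by
    funext ω
    have e1 : w (mixA f₀ K ω) = w ω := by
      simp only [w, mixA]
      split_ifs <;> rfl
    have e2 : g (mixA f₀ K ω) = g ω := by
      funext i
      simp only [g, mixB, mixA]
      split_ifs <;> rfl
    simp only [Function.comp_apply, e1, e2]
  have hlawPi : Pi.map (fun ω => (w ω, g ω)) = lam.prod μY := by
    have e : (fun ω => (w ω, g ω)) = (Prod.map Prod.fst id) ∘ fun x => (x k₁, g x) := rfl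
    rw [e, ← Measure.map_map (measurable_fst.prodMap measurable_id)
      ((measurable_pi_apply k₁).prodMk hg), hpairPi, ← Measure.map_prod_map _ _ measurable_fst
      measurable_id, Measure.map_id, Measure.map_fst_prod, measure_univ, one_smul]
  have hlaw : ν.map (fun ω => (w ω, g ω)) = lam.prod μY := by
    rw [← hlawPi, ← hcompA, ← Measure.map_map hwg (measurable_mixA f₀ K),
      ← Measure.map_map hwg (measurable_mixA f₀ K), hF]
  -- law of the full coordinate and the mixed system
  have hpm : Measurable fun x : Fin n → W × F => (x k₁, g x) := (measurable_pi_apply k₁).prodMk hg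
  have hpairν : ν.map (fun x => (x k₁, g x)) = (lam.prod m).prod μY := by
    have hPp : IsProbabilityMeasure (ν.map fun x => (x k₁, g x)) :=
      Measure.isProbabilityMeasure_map hpm.aemeasurable
    apply joint_eq lam m μY T₀ hT₀ hφ hφm T hT hmix R hR hmixY ha hrec
    · refine ⟨(T.prodCongr R).measurable, ?_⟩
      have e : (T.prodCongr R) ∘ (fun x : Fin n → W × F => (x k₁, g x))
          = (fun x => (x k₁, g x)) ∘ fun (x : Fin n → W × F) j => T (x j) := by
        funext x
        show (T (x k₁), R (g x)) = (T (x k₁), g (fun i => T (x i)))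
        rw [hgR]
      rw [Measure.map_map (T.prodCongr R).measurable hpm, e, ← Measure.map_map hpm hν.measurable,
        hν.map_eq]
    · rw [Measure.map_map measurable_fst hpm]
      exact hmarg k₁
    · have hz : Measurable fun ω : (W × F) × (Fin n → W × F) => (ω.1.1, ω.2) :=
        (measurable_fst.comp measurable_fst).prodMk measurable_snd
      rw [Measure.map_map hz hpm]
      exact hlaw
  -- conclusion
  have hupd := measurable_upd (X := W × F) k₁
  have e : (mixA f₀ (K + 1) : (Fin n → W × F) → Fin n → W × F)
      = (fun p : (W × F) × (Fin n → W × F) => Function.update p.2 k₁ p.1)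
        ∘ fun x => (x k₁, g x) := by
    funext x i
    simp only [Function.comp_apply]
    by_cases hi : i = k₁
    · subst hi
      rw [Function.update_self]
      simp only [mixA]
      rw [if_pos (by omega)]
    · rw [Function.update_of_ne hi]
      have hne : i.1 ≠ K := fun h => hi (Fin.ext (h.trans hk₁.symm))
      simp only [mixA, g, mixB]
      by_cases h : i.1 < K
      · rw [if_pos (by omega), if_pos h]
      · rw [if_neg (by omega), if_neg h, if_neg hne]
  rw [e, ← Measure.map_map hupd hpm, ← Measure.map_map hupd hpm, hpairν]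
  show _ = (Pi.map fun x => (x k₁, g x)).map _
  rw [hpairPi]

/-- joinings over an independent base are products -/
theorem eq_pi {n : ℕ} (T₀ : W ≃ᵐ W) (hT₀ : MeasurePreserving T₀ lam lam)
    {φ : W → F → F} (hφ : Measurable (Function.uncurry φ))
    (hφm : ∀ w, MeasurePreserving (φ w) m m)
    (T : W × F ≃ᵐ W × F) (hT : (T : W × F → W × F) = skew T₀ φ)
    (hmix : Mix (lam.prod m) T) {a : ℝ} (ha : 0 < a)
    (hrec : ∀ (r : ℕ) (c : F → Fin r), Measurable c →
      ∀ᵐ w ∂lam, ∃ᶠ k in atTop, a ≤ 1 - dc m T₀ φ c w 0 k)
    {ν : Measure (Fin n → W × F)} [IsProbabilityMeasure ν]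
    (hν : MeasurePreserving (fun x i => T (x i)) ν ν)
    (hmarg : ∀ j, ν.map (fun x => x j) = lam.prod m)
    (hbase : ν.map (fun x j => (x j).1) = Measure.pi fun _ => lam) :
    ν = Measure.pi fun _ => lam.prod m := by
  obtain ⟨f₀⟩ : Nonempty F := nonempty_of_isProbabilityMeasure m
  obtain ⟨z₀⟩ : Nonempty (W × F) := nonempty_of_isProbabilityMeasure (lam.prod m)
  have hmb : Measurable fun (x : Fin n → W × F) j => (x j).1 :=
    measurable_pi_lambda _ fun j => measurable_fst.comp (measurable_pi_apply j)
  have h0 : ν.map (mixA f₀ 0) = (Measure.pi fun _ => lam.prod m).map (mixA f₀ 0) := by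
    have hc : Measurable fun (u : Fin n → W) i => (u i, f₀) :=
      measurable_pi_lambda _ fun j => (measurable_pi_apply j).prodMk measurable_const
    have e : (mixA f₀ 0 : (Fin n → W × F) → Fin n → W × F)
        = (fun (u : Fin n → W) i => (u i, f₀)) ∘ fun x j => (x j).1 := by
      funext x i
      simp [mixA]
    have h2 : (Measure.pi fun _ : Fin n => lam.prod m).map (fun x j => (x j).1)
        = Measure.pi fun _ => lam := by
      rw [Measure.pi_map_pi (fun _ => measurable_fst.aemeasurable)]
      congr 1
      funext j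
      rw [Measure.map_fst_prod, measure_univ, one_smul]
    rw [e, ← Measure.map_map hc hmb, ← Measure.map_map hc hmb, hbase, h2]
  have hall : ∀ K, K ≤ n → ν.map (mixA f₀ K) = (Measure.pi fun _ => lam.prod m).map (mixA f₀ K) := by
    intro K
    induction K with
    | zero => exact fun _ => h0
    | succ K ih =>
      intro hK
      exact law_succ T₀ hT₀ hφ hφm T hT hmix ha hrec hν hmarg f₀ z₀ (ih (by omega))
        (k₁ := ⟨K, by omega⟩) rfl
  have hid : (mixA f₀ n : (Fin n → W × F) → Fin n → W × F) = id := by
    funext x i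
    simp [mixA, i.2]
  have := hall n le_rfl
  rwa [hid, Measure.map_id, Measure.map_id] at this

end

end Pool.Agent.H52P
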